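import Pool.Agent.helper19.FR.Spec

set_option autoImplicit false

namespace Pool.Agent.FR

open Finset Real Pool.Agent.AT Pool.Agent.OM Pool.Agent.helper85.FC

/-- the spectral theorem in coordinates -/
lemma SPE_spec (X : ℕ) (A : Matrix (Fin X) (Fin X) ℝ) (hA : A.IsHermitian) : ∃ (v : Fin X → Fin X → ℝ) (μ : Fin X → ℝ),
    (∀ j x, ∑ y, A x y * v j y = μ j * v j x) ∧ (∀ i j, ∑ x, v i x * v j x = if i = j then 1 else 0) ∧
    ∀ g h : Fin X → ℝ, ∑ j, (∑ x, g x * v j x) * (∑ x, h x * v j x) = ∑ x, g x * h x := by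
  refine ⟨fun j x => (hA.eigenvectorBasis j) x, hA.eigenvalues, ?_, ?_, ?_⟩
  · intro j x
    have h1 := congrFun (hA.mulVec_eigenvectorBasis j) x
    simpa [Matrix.mulVec, dotProduct] using h1
  · intro i j
    have h1 := (orthonormal_iff_ite.1 hA.eigenvectorBasis.orthonormal) i j
    simp only [PiLp.inner_apply, RCLike.inner_apply, conj_trivial] at h1
    rw [← h1]
    exact Finset.sum_congr rfl fun x _ => mul_comm _ _
  · intro g h
    have h1 := hA.eigenvectorBasis.sum_inner_mul_inner (WithLp.toLp 2 g) (WithLp.toLp 2 h)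
    simp only [PiLp.inner_apply, RCLike.inner_apply, conj_trivial] at h1
    rw [show ∑ x, g x * h x = ∑ x, h x * g x from Finset.sum_congr rfl fun x _ => mul_comm _ _, ← h1]
    refine Finset.sum_congr rfl fun j _ => ?_
    congr 1
    exact Finset.sum_congr rfl fun x _ => mul_comm _ _

theorem SPE : SPE_stmt := by
  classical
  intro X K κ hX hκ hK
  have hX0 : (0 : ℝ) < X := by exact_mod_cast hX
  obtain ⟨A, hAdef⟩ : ∃ A : Matrix (Fin X) (Fin X) ℝ, A = Matrix.of (fun x y => K x y / X) := ⟨_, rfl⟩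
  have hAxy : ∀ x y, A x y = K x y / X := fun x y => by rw [hAdef]; rfl
  have hA : A.IsHermitian := by
    ext x y
    rw [Matrix.conjTranspose_apply, hAxy, hAxy, (hK y x).2.2]
    rfl
  obtain ⟨v, μ, h1, h2, h3⟩ := SPE_spec X A hA
  have hsymm : ∀ x y, A x y = A y x := fun x y => by rw [hAxy, hAxy, (hK x y).2.2]
  -- the sum of the squares of the eigenvalues
  have hμ : ∑ j, μ j ^ 2 ≤ 1 := by
    have h4 : ∀ j, μ j ^ 2 = ∑ x, (∑ y, A x y * v j y) * (∑ y, A x y * v j y) := by
      intro j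
      have h5 := h2 j j
      rw [if_pos rfl] at h5
      calc μ j ^ 2 = μ j ^ 2 * ∑ x, v j x * v j x := by rw [h5, mul_one]
        _ = ∑ x, (μ j * v j x) * (μ j * v j x) := by rw [Finset.mul_sum]; exact Finset.sum_congr rfl fun x _ => by ring
        _ = _ := Finset.sum_congr rfl fun x _ => by rw [h1]
    rw [Finset.sum_congr rfl fun j _ => h4 j, Finset.sum_comm]
    have h5 : ∀ x, ∑ j, (∑ y, A x y * v j y) * (∑ y, A x y * v j y) = ∑ y, A x y * A x y := fun x => h3 (A x) (A x)
    rw [Finset.sum_congr rfl fun x _ => h5 x]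
    have h6 : ∀ x y, A x y * A x y ≤ 1 / (X : ℝ) ^ 2 := by
      intro x y
      have h7 := hK x y
      rw [hAxy]
      calc K x y / X * (K x y / X) = (K x y * K x y) / (X : ℝ) ^ 2 := by ring
        _ ≤ 1 / (X : ℝ) ^ 2 := by
          apply div_le_div_of_nonneg_right _ (by positivity)
          nlinarith
    calc ∑ x, ∑ y, A x y * A x y ≤ ∑ _x : Fin X, ∑ _y : Fin X, 1 / (X : ℝ) ^ 2 :=
          Finset.sum_le_sum fun x _ => Finset.sum_le_sum fun y _ => h6 x y
      _ = 1 := by
        simp only [Finset.sum_const, Finset.card_univ, Fintype.card_fin, nsmul_eq_mul]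
        field_simp
  obtain ⟨S, hS⟩ : ∃ S : Finset (Fin X), S = Finset.univ.filter (fun j => κ < μ j) := ⟨_, rfl⟩
  have hSm : ∀ j, j ∈ S ↔ κ < μ j := fun j => by rw [hS, Finset.mem_filter]; simp
  obtain ⟨σ, hσ⟩ : ∃ σ : Fin (#S) → Fin X, σ = fun i => (S.equivFin.symm i : Fin X) := ⟨_, rfl⟩
  have hσS : ∀ i, σ i ∈ S := fun i => by rw [hσ]; exact (S.equivFin.symm i).2
  have hσinj : Function.Injective σ := by
    intro i l h
    rw [hσ] at h
    exact S.equivFin.symm.injective (Subtype.ext h)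
  have hσsurj : ∀ j ∈ S, ∃ i, σ i = j := by
    intro j hj
    refine ⟨S.equivFin ⟨j, hj⟩, ?_⟩
    rw [hσ]
    simp
  have hsq : √(X : ℝ) * √(X : ℝ) = X := Real.mul_self_sqrt hX0.le
  refine ⟨#S, fun i x => √(X : ℝ) * v (σ i) x, ?_, ?_, ?_, ?_⟩
  · rw [le_div_iff₀ (by positivity)]
    calc (#S : ℝ) * κ ^ 2 = ∑ _j ∈ S, κ ^ 2 := by rw [Finset.sum_const, nsmul_eq_mul]
      _ ≤ ∑ j ∈ S, μ j ^ 2 := by
        refine Finset.sum_le_sum fun j hj => ?_
        have := (hSm j).1 hj
        gcongr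
      _ ≤ ∑ j, μ j ^ 2 := Finset.sum_le_sum_of_subset_of_nonneg (Finset.subset_univ _) fun j _ _ => sq_nonneg _
      _ ≤ 1 := hμ
  · intro i l
    unfold mean
    have h4 : ∑ x, (√(X : ℝ) * v (σ i) x) * (√(X : ℝ) * v (σ l) x) = X * ∑ x, v (σ i) x * v (σ l) x := by
      rw [Finset.mul_sum]
      refine Finset.sum_congr rfl fun x _ => ?_
      calc (√(X : ℝ) * v (σ i) x) * (√(X : ℝ) * v (σ l) x) = (√(X : ℝ) * √(X : ℝ)) * (v (σ i) x * v (σ l) x) := by ring
        _ = X * (v (σ i) x * v (σ l) x) := by rw [hsq]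
    rw [h4, h2, Fintype.card_fin]
    by_cases hil : i = l
    · rw [if_pos (congrArg σ hil), if_pos hil]
      field_simp
    · rw [if_neg (fun h => hil (hσinj h)), if_neg hil]
      simp
  · intro i x
    have hμi : κ < μ (σ i) := (hSm _).1 (hσS i)
    obtain ⟨w, hw⟩ : ∃ w : Fin X → ℝ, w = fun x => √(X : ℝ) * v (σ i) x := ⟨_, rfl⟩
    have hw1 : ∑ y, w y ^ 2 = X := by
      rw [hw]
      have h4 : ∀ y, (√(X : ℝ) * v (σ i) y) ^ 2 = X * (v (σ i) y * v (σ i) y) := by
        intro y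
        calc (√(X : ℝ) * v (σ i) y) ^ 2 = (√(X : ℝ) * √(X : ℝ)) * (v (σ i) y * v (σ i) y) := by ring
          _ = _ := by rw [hsq]
      rw [Finset.sum_congr rfl fun y _ => h4 y, ← Finset.mul_sum, h2, if_pos rfl, mul_one]
    have hw2 : μ (σ i) * w x = ∑ y, A x y * w y := by
      rw [hw]
      calc μ (σ i) * (√(X : ℝ) * v (σ i) x) = √(X : ℝ) * (μ (σ i) * v (σ i) x) := by ring
        _ = √(X : ℝ) * ∑ y, A x y * v (σ i) y := by rw [h1]
        _ = _ := by rw [Finset.mul_sum]; exact Finset.sum_congr rfl fun y _ => by ring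
    have hw3 : (∑ y, A x y * w y) ^ 2 ≤ 1 := by
      have h5 := Finset.sum_mul_sq_le_sq_mul_sq Finset.univ (fun y => A x y) w
      have h6 : ∑ y, A x y ^ 2 ≤ 1 / X := by
        calc ∑ y, A x y ^ 2 ≤ ∑ _y : Fin X, 1 / (X : ℝ) ^ 2 := by
              refine Finset.sum_le_sum fun y _ => ?_
              have h7 := hK x y
              rw [hAxy, div_pow]
              apply div_le_div_of_nonneg_right _ (by positivity)
              nlinarith
          _ = 1 / X := by
            simp only [Finset.sum_const, Finset.card_univ, Fintype.card_fin, nsmul_eq_mul]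
            field_simp
      rw [hw1] at h5
      calc (∑ y, A x y * w y) ^ 2 ≤ (∑ y, A x y ^ 2) * X := h5
        _ ≤ 1 / X * X := by gcongr
        _ = 1 := by field_simp
    show |√(X : ℝ) * v (σ i) x| ≤ 1 / κ
    have hwx : √(X : ℝ) * v (σ i) x = w x := by rw [hw]
    rw [hwx, le_div_iff₀ hκ]
    have h7 : |μ (σ i) * w x| ≤ 1 := by
      rw [hw2]
      exact abs_le_one_iff_mul_self_le_one.2 (by nlinarith)
    rw [abs_mul, abs_of_pos (hκ.trans hμi)] at h7
    have h8 : 0 ≤ |w x| := abs_nonneg _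
    nlinarith
  · intro g hg
    have hgS : ∀ j ∈ S, ∑ x, g x * v j x = 0 := by
      intro j hj
      obtain ⟨i, rfl⟩ := hσsurj j hj
      have h4 := hg i
      unfold mean at h4
      rw [Fintype.card_fin, div_eq_zero_iff] at h4
      rcases h4 with h4 | h4
      · have h5 : √(X : ℝ) * ∑ x, g x * v (σ i) x = 0 := by
          rw [Finset.mul_sum, ← h4]
          exact Finset.sum_congr rfl fun x _ => by ring
        rcases mul_eq_zero.1 h5 with h6 | h6
        · exact absurd h6 (by positivity)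
        · exact h6
      · exact absurd h4 hX0.ne'
    have h4 : ∑ x, g x * (∑ y, A x y * g y) = ∑ j, μ j * (∑ x, g x * v j x) ^ 2 := by
      rw [← h3 g (fun x => ∑ y, A x y * g y)]
      refine Finset.sum_congr rfl fun j _ => ?_
      have h5 : ∑ x, (∑ y, A x y * g y) * v j x = μ j * ∑ y, g y * v j y := by
        calc ∑ x, (∑ y, A x y * g y) * v j x = ∑ x, ∑ y, A x y * g y * v j x := by
              exact Finset.sum_congr rfl fun x _ => by rw [Finset.sum_mul]
          _ = ∑ y, ∑ x, A x y * g y * v j x := Finset.sum_comm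
          _ = ∑ y, g y * ∑ x, A y x * v j x := by
            refine Finset.sum_congr rfl fun y _ => ?_
            rw [Finset.mul_sum]
            exact Finset.sum_congr rfl fun x _ => by rw [hsymm x y]; ring
          _ = ∑ y, g y * (μ j * v j y) := Finset.sum_congr rfl fun y _ => by rw [h1]
          _ = _ := by rw [Finset.mul_sum]; exact Finset.sum_congr rfl fun y _ => by ring
      rw [h5]
      ring
    have h5 : ∑ j, μ j * (∑ x, g x * v j x) ^ 2 ≤ κ * ∑ x, g x ^ 2 := by
      have h6 : ∑ x, g x ^ 2 = ∑ j, (∑ x, g x * v j x) ^ 2 := by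
        calc ∑ x, g x ^ 2 = ∑ x, g x * g x := Finset.sum_congr rfl fun x _ => by ring
          _ = ∑ j, (∑ x, g x * v j x) * (∑ x, g x * v j x) := (h3 g g).symm
          _ = _ := Finset.sum_congr rfl fun j _ => by ring
      rw [h6, Finset.mul_sum]
      refine Finset.sum_le_sum fun j _ => ?_
      by_cases hj : j ∈ S
      · rw [hgS j hj]; simp
      · have h7 : μ j ≤ κ := by
          by_contra h8
          exact hj ((hSm j).2 (not_le.1 h8))
        exact mul_le_mul_of_nonneg_right h7 (sq_nonneg _)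
    unfold mean
    rw [Fintype.card_prod, Fintype.card_fin, Fintype.sum_prod_type]
    have h6 : ∑ x, ∑ y, K x y * g x * g y = X * ∑ x, g x * (∑ y, A x y * g y) := by
      rw [Finset.mul_sum]
      refine Finset.sum_congr rfl fun x _ => ?_
      rw [Finset.mul_sum, Finset.mul_sum]
      refine Finset.sum_congr rfl fun y _ => ?_
      rw [hAxy]
      field_simp
    obtain ⟨P, hP⟩ : ∃ P : ℝ, P = ∑ j, μ j * (∑ x, g x * v j x) ^ 2 := ⟨_, rfl⟩
    obtain ⟨G, hG⟩ : ∃ G : ℝ, G = ∑ x, g x ^ 2 := ⟨_, rfl⟩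
    rw [h6, h4, ← hP, ← hG]
    rw [← hP, ← hG] at h5
    push_cast
    have h8 : (X : ℝ) * P / ((X : ℝ) * X) = P / X := by field_simp
    rw [h8, ← mul_div_assoc]
    exact div_le_div_of_nonneg_right h5 hX0.le

end Pool.Agent.FR
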