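import Pool.Agent.helper19.FR.Spec

set_option autoImplicit false

namespace Pool.Agent.FR

open Finset Real Pool.Agent.AT Pool.Agent.OM Pool.Agent.helper85.FC

/-! ### mean values -/

lemma LAM_mean_mono {α : Type} [Fintype α] {f g : α → ℝ} (h : ∀ x, f x ≤ g x) : mean f ≤ mean g := by
  unfold mean
  exact div_le_div_of_nonneg_right (Finset.sum_le_sum fun x _ => h x) (Nat.cast_nonneg _)

lemma LAM_mean_nonneg {α : Type} [Fintype α] {f : α → ℝ} (h : ∀ x, 0 ≤ f x) : 0 ≤ mean f := by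
  unfold mean
  exact div_nonneg (Finset.sum_nonneg fun x _ => h x) (Nat.cast_nonneg _)

lemma LAM_mean_le_one {α : Type} [Fintype α] {f : α → ℝ} (h : ∀ x, f x ≤ 1) : mean f ≤ 1 := by
  unfold mean
  rcases Nat.eq_zero_or_pos (Fintype.card α) with h0 | h0
  · rw [h0]; simp
  · rw [div_le_one (by exact_mod_cast h0)]
    calc ∑ x, f x ≤ ∑ _x : α, (1 : ℝ) := Finset.sum_le_sum fun x _ => h x
      _ = Fintype.card α := by simp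

lemma LAM_mean_const_mul {α : Type} [Fintype α] (c : ℝ) (f : α → ℝ) : mean (fun x => c * f x) = c * mean f := by
  unfold mean
  rw [← Finset.mul_sum, mul_div_assoc]

lemma LAM_mean_neg {α : Type} [Fintype α] (f : α → ℝ) : mean (fun x => -f x) = -mean f := by
  unfold mean
  rw [Finset.sum_neg_distrib, neg_div]

lemma LAM_mean_prod {α β : Type} [Fintype α] [Fintype β] (f : α × β → ℝ) :
    mean f = mean fun a => mean fun b => f (a, b) := by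
  unfold mean
  rw [Fintype.sum_prod_type, Fintype.card_prod, ← Finset.sum_div, div_div]
  push_cast
  rw [mul_comm (Fintype.card α : ℝ)]

lemma LAM_mean_coe (Φ : Finset ℕ) (G : ℕ → ℝ) : mean (fun v : ↥Φ => G v) = (∑ v ∈ Φ, G v) / #Φ := by
  unfold mean
  rw [Finset.sum_coe_sort Φ G, Fintype.card_coe]

lemma LAM_bad (a b M : ℕ) (y : ℤ) : 0 ≤ bad a b M y ∧ bad a b M y ≤ 1 := by
  unfold bad
  split_ifs <;> norm_num

lemma LAM_Bk (a b M D l X : ℕ) (x y : Fin X) : |Bk a b M D l X x y| ≤ 1 := by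
  unfold Bk bdp
  set z : ℤ := (a : ℤ) * ((x : ℕ) : ℤ) - (b : ℤ) * ((y : ℕ) : ℤ)
  have h1 := LAM_bad a b M z
  have h2 : 0 ≤ mean fun k : Fin l => bad a b M (z + D * ((k : ℕ) : ℤ)) := LAM_mean_nonneg fun k => (LAM_bad a b M _).1
  have h3 : (mean fun k : Fin l => bad a b M (z + D * ((k : ℕ) : ℤ))) ≤ 1 := LAM_mean_le_one fun k => (LAM_bad a b M _).2
  rw [abs_le]
  constructor <;> linarith [h1.1, h1.2]

/-! ### the choice of the parameters -/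

lemma LAM_H (c : ℝ) (hc : 0 < c) : ∃ H : ℕ, 1 ≤ H ∧ 1 / (H : ℝ) + 1 / √(H : ℝ) ≤ c := by
  refine ⟨⌈4 / c ^ 2⌉₊ + 1, by omega, ?_⟩
  set H : ℝ := ((⌈4 / c ^ 2⌉₊ + 1 : ℕ) : ℝ) with hH
  have h1 : 4 / c ^ 2 ≤ H := by
    rw [hH]; push_cast
    linarith [Nat.le_ceil (4 / c ^ 2)]
  have h2 : 1 ≤ H := by rw [hH]; push_cast; linarith [Nat.cast_nonneg (α := ℝ) ⌈4 / c ^ 2⌉₊]
  have h3 : 1 ≤ √H := by rw [Real.one_le_sqrt]; exact h2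
  have h4 : √H ≤ H := by
    calc √H = √H * 1 := by ring
      _ ≤ √H * √H := by gcongr
      _ = H := Real.mul_self_sqrt (by linarith)
  have h5 : 1 / H ≤ 1 / √H := one_div_le_one_div_of_le (by linarith) h4
  have h6 : 2 / c ≤ √H := by
    apply Real.le_sqrt_of_sq_le
    calc (2 / c) ^ 2 = 4 / c ^ 2 := by ring
      _ ≤ H := h1
  have h7 : 1 / √H ≤ c / 2 := by
    rw [div_le_div_iff₀ (by linarith) (by norm_num)]
    rw [div_le_iff₀ hc] at h6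
    linarith
  linarith

lemma LAM_sqrt (ε lam κ : ℝ) (hε : 0 < ε) (hl : 0 < lam) (hκ : κ = (ε * lam / 16) ^ 2) (z : ℝ) (hz : z ≤ 2 * κ) :
    2 * √z ≤ ε * lam / 2 := by
  have h1 : √z ≤ ε * lam / 4 := by
    apply Real.sqrt_le_iff.2
    refine ⟨by positivity, hz.trans ?_⟩
    rw [hκ]
    nlinarith [sq_nonneg (ε * lam)]
  linarith

lemma LAM_gcd (v s t : ℕ) (hv : 0 < v) : v * s / Nat.gcd (v * s) (v * t) = s / Nat.gcd s t := by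
  rw [Nat.gcd_mul_left, Nat.mul_div_mul_left _ _ hv]


/-! ### the Foelner set -/

lemma LAM_ker (hKBD : KBD_stmt) (hFOK : FOK_stmt) (Φ W : Finset ℕ) (s H X : ℕ) (η : ℝ) (hs : 0 < s) (hΦ : Φ.Nonempty) (hsub : Φ ⊆ W)
    (hmul : ∀ v ∈ Φ, v * s ∈ W) (hcard : (#W : ℝ) ≤ (1 + η) * #Φ) (hH : 1 ≤ H) (hX : 1 ≤ X)
    (j : (↥W × Fin H → Fin X) → ↥W × Fin H → ℝ) (hj : ∀ ξ p, 0 ≤ j ξ p ∧ j ξ p ≤ 1) (x y : Fin X) :
    |mean (fun v : ↥Φ => ker j ⟨v * s, hmul v v.2⟩ x y) - mean (fun v : ↥Φ => ker j ⟨v, hsub v.2⟩ x y)| ≤ η := by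
  classical
  set G : ℕ → ℝ := fun w => if h : w ∈ W then ker j ⟨w, h⟩ x y else 0 with hG
  have h1 : (fun v : ↥Φ => ker j ⟨v * s, hmul v v.2⟩ x y) = fun v : ↥Φ => (fun w => G (w * s)) v := by
    funext v
    simp only [hG]
    rw [dif_pos (hmul v v.2)]
  have h2 : (fun v : ↥Φ => ker j ⟨v, hsub v.2⟩ x y) = fun v : ↥Φ => G v := by
    funext v
    simp only [hG]
    rw [dif_pos (hsub v.2)]
  rw [h1, h2, LAM_mean_coe Φ G, LAM_mean_coe Φ (fun w => G (w * s))]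
  have h3 := (hFOK Φ W s η 0 G hs (Finset.card_pos.2 hΦ) le_rfl hsub hmul hcard (by
    intro w hw
    simp only [hG]
    rw [dif_pos hw]
    have := hKBD ↥W H X j ⟨w, hw⟩ hH hX hj x y
    exact ⟨this.1, this.2.1⟩)).1
  exact h3

/-- the density of the clique for the slope `v s` -/
noncomputable def LAM_A {W : Finset ℕ} {H X : ℕ} (Φ : Finset ℕ) (j : (↥W × Fin H → Fin X) → ↥W × Fin H → ℝ) (s : ℕ)
    (z : ↥Φ × (↥W × Fin H → Fin X)) : ℝ :=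
  mean fun m : Fin H => if h : (z.1 : ℕ) * s ∈ W then j z.2 (⟨(z.1 : ℕ) * s, h⟩, m) else 0

lemma LAM_A_bound {W : Finset ℕ} {H X : ℕ} (Φ : Finset ℕ) (j : (↥W × Fin H → Fin X) → ↥W × Fin H → ℝ)
    (hj : ∀ ξ p, 0 ≤ j ξ p ∧ j ξ p ≤ 1) (s : ℕ) (z : ↥Φ × (↥W × Fin H → Fin X)) : 0 ≤ LAM_A Φ j s z ∧ LAM_A Φ j s z ≤ 1 := by
  unfold LAM_A
  constructor
  · apply LAM_mean_nonneg
    intro m
    split_ifs with h
    · exact (hj _ _).1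
    · exact le_rfl
  · apply LAM_mean_le_one
    intro m
    split_ifs with h
    · exact (hj _ _).2
    · norm_num

lemma LAM_A_mean (hFOK : FOK_stmt) (Φ W : Finset ℕ) (s H X : ℕ) (η α : ℝ) (hs : 0 < s) (hΦ : Φ.Nonempty) (hsub : Φ ⊆ W) (hα : 0 ≤ α)
    (hmul : ∀ v ∈ Φ, v * s ∈ W) (hcard : (#W : ℝ) ≤ (1 + η) * #Φ) (hH : 1 ≤ H)
    (j : (↥W × Fin H → Fin X) → ↥W × Fin H → ℝ) (hj : ∀ ξ p, 0 ≤ j ξ p ∧ j ξ p ≤ 1)
    (hsum : α * (#W * H) ≤ mean (fun ξ : ↥W × Fin H → Fin X => ∑ p, j ξ p)) : α - η ≤ mean (LAM_A Φ j s) := by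
  classical
  set G : ℕ → ℝ := fun w => mean fun ξ : ↥W × Fin H → Fin X => mean fun m : Fin H => if h : w ∈ W then j ξ (⟨w, h⟩, m) else 0 with hG
  have h1 : mean (LAM_A Φ j s) = (∑ v ∈ Φ, G (v * s)) / #Φ := by
    rw [LAM_mean_prod, ← LAM_mean_coe Φ (fun v => G (v * s))]
    rfl
  have hG1 : ∀ w ∈ W, 0 ≤ G w ∧ G w ≤ 1 := by
    intro w hw
    constructor
    · apply LAM_mean_nonneg; intro ξ
      apply LAM_mean_nonneg; intro m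
      rw [dif_pos hw]; exact (hj _ _).1
    · apply LAM_mean_le_one; intro ξ
      apply LAM_mean_le_one; intro m
      rw [dif_pos hw]; exact (hj _ _).2
  have h2 : α * #W ≤ ∑ w ∈ W, G w := by
    have hH' : (0 : ℝ) < H := by exact_mod_cast hH
    have h3 : mean (fun ξ : ↥W × Fin H → Fin X => ∑ p, j ξ p) = H * ∑ w ∈ W, G w := by
      have h4 : ∀ ξ : ↥W × Fin H → Fin X, ∑ p, j ξ p =
          H * ∑ w : ↥W, mean fun m : Fin H => if h : (w : ℕ) ∈ W then j ξ (⟨w, h⟩, m) else 0 := by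
        intro ξ
        rw [Fintype.sum_prod_type, Finset.mul_sum]
        apply Finset.sum_congr rfl
        intro w _
        unfold mean
        rw [Fintype.card_fin, mul_div_cancel₀ _ hH'.ne']
        apply Finset.sum_congr rfl
        intro m _
        show j ξ (w, m) = if h : (w : ℕ) ∈ W then j ξ (⟨w, h⟩, m) else 0
        rw [dif_pos w.2]
      rw [show (fun ξ : ↥W × Fin H → Fin X => ∑ p, j ξ p) = fun ξ =>
        H * ∑ w : ↥W, mean fun m : Fin H => if h : (w : ℕ) ∈ W then j ξ (⟨w, h⟩, m) else 0 from funext h4, LAM_mean_const_mul]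
      congr 1
      rw [← Finset.sum_coe_sort W G]
      unfold mean
      rw [Finset.sum_comm, Finset.sum_div]
      simp only [hG]
      rfl
    rw [h3] at hsum
    have h5 : H * (α * #W) ≤ H * ∑ w ∈ W, G w := by linarith
    exact le_of_mul_le_mul_left h5 hH'
  have h6 := (hFOK Φ W s η α G hs (Finset.card_pos.2 hΦ) hα hsub hmul hcard hG1).2 h2
  rw [h1]; exact h6


/-! ### the assembly -/

/-- the estimate for one pair `s ≠ t` -/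
lemma LAM_pair (hCOR : COR_stmt) (hSTP : STP_stmt) (Φ W : Finset ℕ) (s t a b H X M D l n : ℕ) (ε lam κ η θ : ℝ)
    (hΦ : Φ.Nonempty) (hpos : ∀ v ∈ Φ, 0 < v) (hs : ∀ v ∈ Φ, v * s ∈ W) (ht : ∀ v ∈ Φ, v * t ∈ W) (hst : s ≠ t)
    (ha : a = t / Nat.gcd s t) (hb : b = s / Nat.gcd s t) (hε : 0 < ε) (hκ : 0 < κ) (hη : 0 ≤ η)
    (hH : 1 ≤ H) (hX : 1 ≤ X) (hl : 1 ≤ l) (K : Fin X → Fin X → ℝ) (e : Fin n → Fin X → ℝ) (hEig : Eig K κ e)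
    (j : (↥W × Fin H → Fin X) → ↥W × Fin H → ℝ) (hj : ∀ ξ p, j ξ p = 0 ∨ j ξ p = 1)
    (hKs : ∀ x y, |mean (fun v : ↥Φ => ker j ⟨v * s, hs v v.2⟩ x y) - K x y| ≤ η)
    (hKt : ∀ x y, |mean (fun v : ↥Φ => ker j ⟨v * t, ht v v.2⟩ x y) - K x y| ≤ η)
    (hTC : ∀ (ξ : ↥W × Fin H → Fin X) (w w' : ↥W) (m m' : Fin H), w ≠ w' → j ξ (w, m) = 1 → j ξ (w', m') = 1 →
      TrueCase ((w' : ℕ) / Nat.gcd w w') ((w : ℕ) / Nat.gcd w w')
        ((((w' : ℕ) / Nat.gcd w w' : ℕ) : ℤ) - (((w : ℕ) / Nat.gcd w w' : ℕ) : ℤ) +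
          M * ((((w' : ℕ) / Nat.gcd w w' : ℕ) : ℤ) * ((ξ (w, m) : ℕ) : ℤ) - (((w : ℕ) / Nat.gcd w w' : ℕ) : ℤ) * ((ξ (w', m') : ℕ) : ℤ))))
    (hUN : ∀ y : ℤ, ε < mean fun k : Fin l => bad a b M (y + D * ((k : ℕ) : ℤ)))
    (hE : ∑ i, ∑ l', |mean (fun z : Fin X × Fin X => e i z.1 * e l' z.2 * Bk a b M D l X z.1 z.2)| ≤ θ)
    (hfin : θ + 2 * √(κ + (1 + n / κ) ^ 4 * (η + 1 / H + 1 / √H)) ≤ ε * lam) :
    mean (fun z => LAM_A Φ j s z * LAM_A Φ j t z) ≤ lam := by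
  classical
  have hj' : ∀ ξ p, 0 ≤ j ξ p ∧ j ξ p ≤ 1 := by
    intro ξ p
    rcases hj ξ p with h | h <;> rw [h] <;> norm_num
  have : Nonempty ↥Φ := hΦ.to_subtype
  set p : ↥Φ → ↥W := fun v => ⟨v * s, hs v v.2⟩ with hp
  set p' : ↥Φ → ↥W := fun v => ⟨v * t, ht v v.2⟩ with hp'
  have hne : ∀ v, p v ≠ p' v := by
    intro v h
    have h1 : (v : ℕ) * s = v * t := congrArg Subtype.val h
    exact hst (Nat.eq_of_mul_eq_mul_left (hpos v v.2) h1)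
  have hc := hCOR ↥W ↥Φ H X n j p p' K κ η e (Bk a b M D l X) hH hX hj' hne hκ hη hKs hKt hEig (LAM_Bk a b M D l X)
  have h1 : ∀ v : ↥Φ, ε * mean (fun ξ : ↥W × Fin H → Fin X => LAM_A Φ j s (v, ξ) * LAM_A Φ j t (v, ξ)) ≤
      -corr j (p v) (p' v) (Bk a b M D l X) := by
    intro v
    have h2 := hSTP ↥W H X a b M D l ε j (p v) (p' v) hH hX hl hj hUN (by
      intro ξ m m' h1 h2
      have h3 := hTC ξ (p v) (p' v) m m' (hne v) h1 h2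
      have h4 : ((p' v : ↥W) : ℕ) / Nat.gcd (p v : ℕ) (p' v : ℕ) = a := by
        show (v : ℕ) * t / Nat.gcd (v * s) (v * t) = a
        rw [ha, Nat.gcd_comm, LAM_gcd _ _ _ (hpos v v.2), Nat.gcd_comm]
      have h5 : ((p v : ↥W) : ℕ) / Nat.gcd (p v : ℕ) (p' v : ℕ) = b := by
        show (v : ℕ) * s / Nat.gcd (v * s) (v * t) = b
        rw [hb, LAM_gcd _ _ _ (hpos v v.2)]
      rw [h4, h5] at h3
      exact h3)
    refine le_trans (le_of_eq ?_) h2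
    congr 1
    unfold mean
    congr 1
    apply Finset.sum_congr rfl
    intro ξ _
    unfold LAM_A
    have h6 : ∀ (u : ℕ) (hu : (v : ℕ) * u ∈ W), (mean fun m : Fin H => if h : (v : ℕ) * u ∈ W then j ξ (⟨(v : ℕ) * u, h⟩, m) else 0) =
        mean fun m : Fin H => j ξ (⟨(v : ℕ) * u, hu⟩, m) := by
      intro u hu
      congr 1
      funext m
      rw [dif_pos hu]
    show (mean fun m : Fin H => if h : (v : ℕ) * s ∈ W then j ξ (⟨(v : ℕ) * s, h⟩, m) else 0) *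
      (mean fun m : Fin H => if h : (v : ℕ) * t ∈ W then j ξ (⟨(v : ℕ) * t, h⟩, m) else 0) = _
    rw [h6 s (hs v v.2), h6 t (ht v v.2)]
    rfl
  have h7 : ε * mean (fun z => LAM_A Φ j s z * LAM_A Φ j t z) ≤ -mean (fun v => corr j (p v) (p' v) (Bk a b M D l X)) := by
    rw [LAM_mean_prod, ← LAM_mean_const_mul, ← LAM_mean_neg]
    exact LAM_mean_mono h1
  have h8 := neg_le_abs (mean (fun v => corr j (p v) (p' v) (Bk a b M D l X)))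
  have h9 : ε * mean (fun z => LAM_A Φ j s z * LAM_A Φ j t z) ≤ ε * lam := by linarith
  exact le_of_mul_le_mul_left h9 hε


/-- the theorem with explicit parameters -/
lemma LAM_gen (hKBD : KBD_stmt) (hSPE : SPE_stmt) (hCOR : COR_stmt) (hEXC : EXC_stmt) (hFOL : FOL_stmt) (hFOK : FOK_stmt)
    (hMOD : MOD_stmt) (hUNS : UNS_stmt) (hSTP : STP_stmt) (hGSY : GSY_stmt) (hQ : ∀ k : ℕ, 1 ≤ k → Qk k) (hPRT : PRT_stmt)
    (ε lam κ θ : ℝ) (N C : ℕ) (hε : 0 < ε) (hlam : 0 < lam) (hκdef : κ = (ε * lam / 16) ^ 2) (hN : 1 / κ ^ 2 ≤ (N : ℝ))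
    (hθ : 0 < θ) (hNθ : (N : ℝ) * θ ≤ ε * lam / 4) (hC : 2 * (N : ℝ) ^ 2 / θ ^ 2 ≤ C) :
    ∀ (F : Finset ℕ) (η : ℝ), (∀ s ∈ F, 0 < s) → 0 < η → Lam ε lam η C F := by
  classical
  have hκ : 0 < κ := by rw [hκdef]; positivity
  have hNpos : (0 : ℝ) ≤ N := Nat.cast_nonneg _
  intro F η hF hη
  -- parameters
  obtain ⟨m, hmdef⟩ : ∃ m : ℕ, m = F.sup id := ⟨_, rfl⟩
  have hm : ∀ s ∈ F, s ≤ m := by
    intro s hs
    rw [hmdef]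
    exact Finset.le_sup (f := id) hs
  obtain ⟨q, hqdef⟩ : ∃ q : ℝ, q = (1 + (N : ℝ) / κ) ^ 4 := ⟨_, rfl⟩
  have hq : 1 ≤ q := by
    rw [hqdef]
    apply one_le_pow₀
    have : 0 ≤ (N : ℝ) / κ := by positivity
    linarith
  obtain ⟨c, hcdef⟩ : ∃ c : ℝ, c = κ / (2 * q) := ⟨_, rfl⟩
  have hc : 0 < c := by rw [hcdef]; positivity
  have hcq : q * (2 * c) = κ := by
    rw [hcdef]
    field_simp
  obtain ⟨η₁, hη₁def⟩ : ∃ η₁ : ℝ, η₁ = min (min (η / 2) c) (1 / 4) := ⟨_, rfl⟩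
  have hη₁ : 0 < η₁ := by
    rw [hη₁def]
    exact lt_min (lt_min (by linarith) hc) (by norm_num)
  have hη₁a : η₁ ≤ η / 2 := by rw [hη₁def]; exact (min_le_left _ _).trans (min_le_left _ _)
  have hη₁b : η₁ ≤ c := by rw [hη₁def]; exact (min_le_left _ _).trans (min_le_right _ _)
  have hη₁c : η₁ ≤ 1 / 4 := by rw [hη₁def]; exact min_le_right _ _
  obtain ⟨H, hH, hHc⟩ := LAM_H c hc
  obtain ⟨Φ, hΦ, hΦpos, hΦcard⟩ := hFOL F η₁ hF hη₁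
  obtain ⟨W, hWdef⟩ : ∃ W : Finset ℕ, W = Φ ∪ (Φ ×ˢ F).image (fun z => z.1 * z.2) := ⟨_, rfl⟩
  have hsub : Φ ⊆ W := by rw [hWdef]; exact Finset.subset_union_left
  have hmul : ∀ s ∈ F, ∀ v ∈ Φ, v * s ∈ W := by
    intro s hs v hv
    rw [hWdef, Finset.mem_union, Finset.mem_image]
    exact Or.inr ⟨(v, s), Finset.mem_product.2 ⟨hv, hs⟩, rfl⟩
  have hWcard : (#W : ℝ) ≤ (1 + η₁) * #Φ := by rw [hWdef]; exact hΦcard
  have hWne : W.Nonempty := hΦ.mono hsub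
  have hWpos : ∀ w ∈ W, 0 < w := by
    intro w hw
    rw [hWdef, Finset.mem_union, Finset.mem_image] at hw
    rcases hw with hw | ⟨z, hz, rfl⟩
    · exact hΦpos w hw
    · rw [Finset.mem_product] at hz
      exact Nat.mul_pos (hΦpos _ hz.1) (hF _ hz.2)
  obtain ⟨M, X₀, hM, hmod⟩ := hMOD hQ hPRT W H η₁ hWne hWpos hH hη₁
  obtain ⟨R, hRdef⟩ : ∃ R : Finset (ℕ × ℕ), R = {r ∈ (F ×ˢ F).image (fun p => rp p.1 p.2) | ¬ GoodR ε r.1 r.2} := ⟨_, rfl⟩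
  have hRng : ∀ r ∈ R, ¬ GoodR ε r.1 r.2 := by
    intro r hr
    rw [hRdef, Finset.mem_filter] at hr
    exact hr.2
  have hRm : ∀ r ∈ R, 1 ≤ r.1 ∧ r.1 ≤ m ∧ 1 ≤ r.2 ∧ r.2 ≤ m ∧ Nat.Coprime r.1 r.2 := by
    intro r hr
    rw [hRdef, Finset.mem_filter, Finset.mem_image] at hr
    obtain ⟨⟨z, hz, rfl⟩, -⟩ := hr
    rw [Finset.mem_product] at hz
    have hz1 := hF _ hz.1
    have hz2 := hF _ hz.2
    have hg : 0 < Nat.gcd z.1 z.2 := Nat.gcd_pos_of_pos_left _ hz1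
    unfold rp
    refine ⟨Nat.div_pos (Nat.le_of_dvd hz1 (Nat.gcd_dvd_left _ _)) hg, (Nat.div_le_self _ _).trans (hm _ hz.1),
      Nat.div_pos (Nat.le_of_dvd hz2 (Nat.gcd_dvd_right _ _)) hg, (Nat.div_le_self _ _).trans (hm _ hz.2),
      Nat.coprime_div_gcd_div_gcd hg⟩
  obtain ⟨l, hl, hun⟩ := hUNS ε R M (m ^ 2).factorial hM (Nat.factorial_pos _) hRng
  obtain ⟨X, hXdef⟩ : ∃ X : ℕ, X = X₀ + 4 * l * (m ^ 2).factorial * m * #R + 1 := ⟨_, rfl⟩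
  have hX : 1 ≤ X := by omega
  have hXX : X₀ ≤ X := by
    rw [hXdef]
    have : 0 ≤ 4 * l * (m ^ 2).factorial * m * #R := Nat.zero_le _
    omega
  have hXb : 4 * l * ((m ^ 2).factorial : ℝ) * m * #R ≤ X := by
    rw [hXdef]
    push_cast
    have : (0 : ℝ) ≤ X₀ := Nat.cast_nonneg _
    linarith
  obtain ⟨j, hj, hTC, hsum⟩ := hmod X hXX
  have hj' : ∀ ξ p, 0 ≤ j ξ p ∧ j ξ p ≤ 1 := by
    intro ξ p
    rcases hj ξ p with h | h <;> rw [h] <;> norm_num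
  -- the kernel
  obtain ⟨K, hKdef⟩ : ∃ K : Fin X → Fin X → ℝ, K = fun x y => mean (fun v : ↥Φ => ker j ⟨v, hsub v.2⟩ x y) := ⟨_, rfl⟩
  have hK : ∀ x y, 0 ≤ K x y ∧ K x y ≤ 1 ∧ K x y = K y x := by
    intro x y
    rw [hKdef]
    refine ⟨LAM_mean_nonneg fun v => (hKBD ↥W H X j _ hH hX hj' x y).1, LAM_mean_le_one fun v => (hKBD ↥W H X j _ hH hX hj' x y).2.1, ?_⟩
    show mean (fun v : ↥Φ => ker j ⟨v, hsub v.2⟩ x y) = mean (fun v : ↥Φ => ker j ⟨v, hsub v.2⟩ y x)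
    congr 1
    funext v
    exact (hKBD ↥W H X j _ hH hX hj' x y).2.2
  obtain ⟨n, e, hn, hEig⟩ := hSPE X K κ hX hκ hK
  have hnN : (n : ℝ) ≤ N := hn.trans hN
  obtain ⟨E₀, hE₀sub, hE₀card, hE₀⟩ := hEXC m M l X n θ R e hθ hl hX hRm hXb hEig.1
  have hKs : ∀ s (hs : s ∈ F), ∀ x y, |mean (fun v : ↥Φ => ker j ⟨v * s, hmul s hs v v.2⟩ x y) - K x y| ≤ η₁ := by
    intro s hs x y
    rw [hKdef]
    exact LAM_ker hKBD hFOK Φ W s H X η₁ (hF s hs) hΦ hsub (hmul s hs) hWcard hH hX j hj' x y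
  -- the final estimate
  have hfin : (n : ℝ) * θ + 2 * √(κ + (1 + (n : ℝ) / κ) ^ 4 * (η₁ + 1 / H + 1 / √H)) ≤ ε * lam := by
    have h1 : (1 + (n : ℝ) / κ) ^ 4 ≤ q := by
      rw [hqdef]
      have h2 : (n : ℝ) / κ ≤ (N : ℝ) / κ := div_le_div_of_nonneg_right hnN hκ.le
      have h3 : 0 ≤ (n : ℝ) / κ := by positivity
      gcongr
    have h2 : η₁ + 1 / (H : ℝ) + 1 / √(H : ℝ) ≤ 2 * c := by linarith
    have h3 : 0 ≤ η₁ + 1 / (H : ℝ) + 1 / √(H : ℝ) := by positivity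
    have h4 : (1 + (n : ℝ) / κ) ^ 4 * (η₁ + 1 / H + 1 / √H) ≤ κ := by
      calc (1 + (n : ℝ) / κ) ^ 4 * (η₁ + 1 / H + 1 / √H) ≤ q * (2 * c) := by gcongr
        _ = κ := hcq
    have h5 := LAM_sqrt ε lam κ hε hlam hκdef _ (show κ + (1 + (n : ℝ) / κ) ^ 4 * (η₁ + 1 / H + 1 / √H) ≤ 2 * κ by linarith)
    have h6 : (n : ℝ) * θ ≤ N * θ := by gcongr
    have h7 : 0 ≤ ε * lam := by positivity
    linarith
  -- the exceptional ratios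
  have hXne : Nonempty (Fin X) := ⟨⟨0, hX⟩⟩
  have hΦne : Nonempty ↥Φ := hΦ.to_subtype
  refine ⟨E₀.image Prod.swap, ?_, ↥Φ × (↥W × Fin H → Fin X), inferInstance, inferInstance, LAM_A Φ j, ?_, ?_, ?_⟩
  · have h1 : (#(E₀.image Prod.swap) : ℝ) ≤ (C : ℝ) := by
      calc (#(E₀.image Prod.swap) : ℝ) ≤ #E₀ := by exact_mod_cast Finset.card_image_le
        _ ≤ 2 * (n : ℝ) ^ 2 / θ ^ 2 := hE₀card
        _ ≤ 2 * (N : ℝ) ^ 2 / θ ^ 2 := by gcongr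
        _ ≤ _ := hC
    exact_mod_cast h1
  · intro s z
    exact LAM_A_bound Φ j hj' s z
  · intro s hs
    have h1 := LAM_A_mean hFOK Φ W s H X η₁ (1 / 4 + 1 / 500000 - η₁) (hF s hs) hΦ hsub (by linarith) (hmul s hs) hWcard hH j hj' hsum
    linarith
  · intro s hs t ht hst hrE hGQ
    have hg : Nat.gcd t s = Nat.gcd s t := Nat.gcd_comm _ _
    have hnot : ¬ GoodR ε (t / Nat.gcd s t) (s / Nat.gcd s t) := fun h => hGQ (hGSY ε _ _ h)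
    have hrR : (t / Nat.gcd s t, s / Nat.gcd s t) ∈ R := by
      rw [hRdef, Finset.mem_filter, Finset.mem_image]
      refine ⟨⟨(t, s), Finset.mem_product.2 ⟨ht, hs⟩, ?_⟩, hnot⟩
      show (t / Nat.gcd t s, s / Nat.gcd t s) = _
      rw [hg]
    have hrE₀ : (t / Nat.gcd s t, s / Nat.gcd s t) ∉ E₀ := by
      intro h
      apply hrE
      rw [Finset.mem_image]
      exact ⟨_, h, rfl⟩
    obtain ⟨a, ha⟩ : ∃ a : ℕ, a = t / Nat.gcd s t := ⟨_, rfl⟩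
    obtain ⟨b, hb⟩ : ∃ b : ℕ, b = s / Nat.gcd s t := ⟨_, rfl⟩
    obtain ⟨D, hD⟩ : ∃ D : ℕ, D = (m ^ 2).factorial := ⟨_, rfl⟩
    rw [← ha, ← hb] at hrR hrE₀
    have hun' := hun (a, b) hrR
    have hE' := hE₀ (a, b) hrR hrE₀
    rw [← hD] at hun' hE'
    exact LAM_pair hCOR hSTP Φ W s t a b H X M D l n ε lam κ η₁ (n * θ) hΦ hΦpos
      (hmul s hs) (hmul t ht) hst ha hb hε hκ hη₁.le hH hX hl K e hEig j hj (hKs s hs) (hKs t ht) hTC hun' hE' hfin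

theorem LAM (hKBD : KBD_stmt) (hSPE : SPE_stmt) (hCOR : COR_stmt) (hEXC : EXC_stmt) (hFOL : FOL_stmt) (hFOK : FOK_stmt)
    (hMOD : MOD_stmt) (hUNS : UNS_stmt) (hSTP : STP_stmt) (hGSY : GSY_stmt) (hQ : ∀ k : ℕ, 1 ≤ k → Qk k) (hPRT : PRT_stmt) :
    LAM_stmt := by
  intro ε lam hε hlam
  obtain ⟨κ, hκdef⟩ : ∃ κ : ℝ, κ = (ε * lam / 16) ^ 2 := ⟨_, rfl⟩
  obtain ⟨N, hNdef⟩ : ∃ N : ℕ, N = ⌈1 / κ ^ 2⌉₊ := ⟨_, rfl⟩
  have hN : 1 / κ ^ 2 ≤ (N : ℝ) := by rw [hNdef]; exact Nat.le_ceil _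
  have hNpos : (0 : ℝ) ≤ N := Nat.cast_nonneg _
  obtain ⟨θ, hθdef⟩ : ∃ θ : ℝ, θ = ε * lam / (4 * ((N : ℝ) + 1)) := ⟨_, rfl⟩
  have hθ : 0 < θ := by rw [hθdef]; positivity
  have hNθ : (N : ℝ) * θ ≤ ε * lam / 4 := by
    rw [hθdef, mul_div_assoc', div_le_div_iff₀ (by positivity) (by norm_num)]
    have : 0 ≤ ε * lam := by positivity
    nlinarith
  exact ⟨⌈2 * (N : ℝ) ^ 2 / θ ^ 2⌉₊, LAM_gen hKBD hSPE hCOR hEXC hFOL hFOK hMOD hUNS hSTP hGSY hQ hPRT ε lam κ θ N _ hε hlam hκdef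
    hN hθ hNθ (Nat.le_ceil _)⟩

/-- the number of exceptional ratios is at most `2^76 (ε lam)^(-18)` -/
theorem LAMQ (hKBD : KBD_stmt) (hSPE : SPE_stmt) (hCOR : COR_stmt) (hEXC : EXC_stmt) (hFOL : FOL_stmt) (hFOK : FOK_stmt)
    (hMOD : MOD_stmt) (hUNS : UNS_stmt) (hSTP : STP_stmt) (hGSY : GSY_stmt) (hQ : ∀ k : ℕ, 1 ≤ k → Qk k) (hPRT : PRT_stmt)
    (ε lam : ℝ) (C : ℕ) (hε : 0 < ε) (hlam : 0 < lam) (h1 : ε * lam ≤ 1) (hC : 2 ^ 76 / (ε * lam) ^ 18 ≤ (C : ℝ)) :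
    ∀ (F : Finset ℕ) (η : ℝ), (∀ s ∈ F, 0 < s) → 0 < η → Lam ε lam η C F := by
  obtain ⟨u, hu⟩ : ∃ u : ℝ, u = ε * lam := ⟨_, rfl⟩
  have hu0 : 0 < u := by rw [hu]; positivity
  rw [← hu] at h1 hC
  obtain ⟨κ, hκdef⟩ : ∃ κ : ℝ, κ = (u / 16) ^ 2 := ⟨_, rfl⟩
  have hκ : 0 < κ := by rw [hκdef]; positivity
  have hκ1 : κ ≤ 1 := by
    rw [hκdef]
    nlinarith
  obtain ⟨N, hNdef⟩ : ∃ N : ℕ, N = ⌈1 / κ ^ 2⌉₊ := ⟨_, rfl⟩
  have hN : 1 / κ ^ 2 ≤ (N : ℝ) := by rw [hNdef]; exact Nat.le_ceil _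
  have hk2 : 1 ≤ 1 / κ ^ 2 := by
    rw [le_div_iff₀ (by positivity)]
    nlinarith
  have hN2 : (N : ℝ) ≤ 2 / κ ^ 2 := by
    have h3 : (N : ℝ) < 1 / κ ^ 2 + 1 := by rw [hNdef]; exact Nat.ceil_lt_add_one (by positivity)
    have h4 : 2 / κ ^ 2 = 1 / κ ^ 2 + 1 / κ ^ 2 := by ring
    linarith
  have hN1 : (1 : ℝ) ≤ N := hk2.trans hN
  obtain ⟨θ, hθdef⟩ : ∃ θ : ℝ, θ = u * κ ^ 2 / 16 := ⟨_, rfl⟩
  have hθ : 0 < θ := by rw [hθdef]; positivity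
  have hNθ : (N : ℝ) * θ ≤ ε * lam / 4 := by
    rw [← hu, hθdef]
    calc (N : ℝ) * (u * κ ^ 2 / 16) ≤ 2 / κ ^ 2 * (u * κ ^ 2 / 16) := by gcongr
      _ = u / 8 := by field_simp; ring
      _ ≤ u / 4 := by linarith
  refine LAM_gen hKBD hSPE hCOR hEXC hFOL hFOK hMOD hUNS hSTP hGSY hQ hPRT ε lam κ θ N C hε hlam (by rw [← hu]; exact hκdef)
    hN hθ hNθ ?_
  calc 2 * (N : ℝ) ^ 2 / θ ^ 2 ≤ 2 * (2 / κ ^ 2) ^ 2 / θ ^ 2 := by gcongr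
    _ = 2 ^ 75 / u ^ 18 := by
      rw [hθdef, hκdef]
      field_simp
      norm_num
    _ ≤ 2 ^ 76 / u ^ 18 := by gcongr <;> norm_num
    _ ≤ C := hC

end Pool.Agent.FR
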