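import Pool.Agent.helper40.FR.B
import Pool.Agent.helper40.Laz.Comm2

/-!
# fr:NI : `S_(r+1)` is not the mainline group (from the centralizer statement)
-/

namespace Pool.Agent.helper40.FR

open Polynomial Finset Pool.Agent.helper40.Laz

variable {p : ℕ} [hp : Fact p.Prime]

theorem NI_thU_pow : thU p ^ p = 1 := by
  apply Units.ext
  rw [Units.val_pow_eq_pow_val]
  exact th_pow p

theorem NI_card_Pg : Nat.card (Pg p) ≤ p := by
  rw [Nat.card_zpowers]
  exact Nat.le_of_dvd hp.out.pos (orderOf_dvd_of_pow_eq_one NI_thU_pow)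

instance NI_finite_Pg : Finite (Pg p) := by
  have h : orderOf (thU p) ≠ 0 := by
    intro h0
    have h1 := orderOf_dvd_of_pow_eq_one (NI_thU_pow (p := p))
    rw [h0] at h1
    exact hp.out.ne_zero (Nat.eq_zero_of_zero_dvd h1)
  have h2 : Nat.card (Pg p) ≠ 0 := by
    rw [Nat.card_zpowers]; exact h
  exact Nat.finite_of_card_ne_zero h2

/-- If any two elements of the group of `𝒪 / 𝔭^(r+1)` commute, then there is a contradiction. -/
theorem NI_not_comm {r : ℕ} (β : BB p r) (hr : p ≤ r + 2)
    (hJ : ∀ x y z, pi p ^ (r + 1) ∣ β.jac x y z) (h : (β.L hr (r + 1) hJ).Nil (p - 1))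
    (hc : ∀ x y : (β.L hr (r + 1) hJ).G h, x * y = y * x) : False := by
  obtain ⟨x, y, hxy⟩ := β.full
  apply hxy
  have h1 := hc (ELie.toG _ h (β.cl hr (r + 1) hJ x)) (ELie.toG _ h (β.cl hr (r + 1) hJ y))
  have h2 : laz (lcsFil h) (lcsFil_one h) (β.cl hr (r + 1) hJ x) (β.cl hr (r + 1) hJ y) =
      laz (lcsFil h) (lcsFil_one h) (β.cl hr (r + 1) hJ y) (β.cl hr (r + 1) hJ x) := h1
  have h3 := lie_of_laz_comm (lcsFil h) (lcsFil_one h) inv_padic one_le_pred h2
  rw [β.cl_lie] at h3
  exact (β.cl_eq_zero hr (r + 1) hJ).1 h3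

theorem NI_main {r : ℕ} (β : BB p r) (hr : p + 1 ≤ r)
    (hJ : ∀ x y z, pi p ^ (r + 1) ∣ β.jac x y z) (h : (β.L (by omega) (r + 1) hJ).Nil (p - 1))
    (hcent : ∀ (t : (β.L (by omega) (r + 1) hJ).S h), t.right ≠ 1 → ∀ d : OO p,
      Commute t (SemidirectProduct.inl (ELie.toG _ h (β.cl (by omega) (r + 1) hJ d))) →
      pi p ^ r ∣ d) :
    ¬ Nonempty ((β.L (by omega) (r + 1) hJ).S h ≃* mainline p (r + 2)) := by
  rintro ⟨e⟩
  have h2p := hp.out.two_le
  -- the abelian group
  let M : Type := Multiplicative (OO p ⧸ PP p ^ (r + 1))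
  let e' : (β.L (by omega) (r + 1) hJ).S h ≃* (M ⋊[mainPhi p (r + 2)] Pg p) := e
  let ψ : M →* (β.L (by omega) (r + 1) hJ).S h := e'.symm.toMonoidHom.comp SemidirectProduct.inl
  have hψ : Function.Injective ψ := e'.symm.injective.comp SemidirectProduct.inl_injective
  have hcardM : Nat.card M = p ^ (r + 1) := card_quot (r + 1)
  have hMfin : Finite M := Nat.finite_of_card_ne_zero (by
    rw [hcardM]; exact pow_ne_zero _ hp.out.ne_zero)
  have hMcomm : ∀ a b : M, a * b = b * a := fun a b => mul_comm a b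
  let ρ : M →* Pg p := SemidirectProduct.rightHom.comp ψ
  have hρ : ∀ m, ρ m = (ψ m).right := fun m => rfl
  by_cases hcase : ∀ m, ρ m = 1
  · -- the abelian group is contained in `G`
    have hinl : ∀ m, ψ m = SemidirectProduct.inl (ψ m).left := by
      intro m
      apply SemidirectProduct.ext
      · rfl
      · exact hcase m
    have hinj : Function.Injective (fun m : M => (ψ m).left) := by
      intro a b hab
      apply hψ
      rw [hinl a, hinl b]
      exact congrArg _ hab
    have hcardG : Nat.card ((β.L (by omega) (r + 1) hJ).G h) = p ^ (r + 1) :=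
      β.card (by omega) (r + 1) hJ
    have hGfin : Finite ((β.L (by omega) (r + 1) hJ).G h) := Nat.finite_of_card_ne_zero (by
      rw [hcardG]; exact pow_ne_zero _ hp.out.ne_zero)
    have hbij : Function.Bijective (fun m : M => (ψ m).left) :=
      (Nat.bijective_iff_injective_and_card _).2 ⟨hinj, hcardM.trans hcardG.symm⟩
    refine NI_not_comm β (by omega) hJ h ?_
    intro x y
    obtain ⟨a, rfl⟩ := hbij.2 x
    obtain ⟨b, rfl⟩ := hbij.2 y
    have h3 : ψ a * ψ b = ψ b * ψ a := by
      rw [← map_mul, ← map_mul, hMcomm a b]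
    rw [hinl a, hinl b, ← map_mul, ← map_mul] at h3
    exact SemidirectProduct.inl_injective h3
  · push Not at hcase
    obtain ⟨m₀, hm₀⟩ := hcase
    -- the kernel of `ρ` is small
    have hker : ∀ m : ρ.ker, ∃ w : OO p, ψ m = SemidirectProduct.inl (ELie.toG _ h
        (β.cl (by omega) (r + 1) hJ (pi p ^ r * w))) := by
      intro m
      have hm1 : (ψ m).right = 1 := m.2
      have hinl : ψ m = SemidirectProduct.inl (ψ m).left := by
        apply SemidirectProduct.ext
        · rfl
        · exact hm1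
      obtain ⟨d, hd⟩ := β.cl_surjective (by omega) (r + 1) hJ (ELie.ofG _ h (ψ m).left)
      have hinl2 : ψ m = SemidirectProduct.inl (ELie.toG _ h
          (β.cl (by omega) (r + 1) hJ d)) := by
        rw [hd]; exact hinl
      have hcomm : Commute (ψ m₀) (SemidirectProduct.inl (ELie.toG _ h
          (β.cl (by omega) (r + 1) hJ d))) := by
        rw [← hinl2]
        show ψ m₀ * ψ m = ψ m * ψ m₀
        rw [← map_mul, ← map_mul, hMcomm]
      obtain ⟨w, hw⟩ := hcent (ψ m₀) hm₀ d hcomm
      exact ⟨w, by rw [hinl2, hw]⟩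
    choose w hw using hker
    have hinj : Function.Injective (fun m : ρ.ker => kap p (w m)) := by
      intro a b hab
      have hab' : kap p (w a - w b) = 0 := by
        rw [map_sub, sub_eq_zero]; exact hab
      rw [kap_eq_zero_iff] at hab'
      have h5 : β.cl (by omega) (r + 1) hJ (pi p ^ r * w a) =
          β.cl (by omega) (r + 1) hJ (pi p ^ r * w b) := by
        rw [← sub_eq_zero, ← map_sub, β.cl_eq_zero, ← mul_sub, pow_succ]
        exact mul_dvd_mul_left _ hab'
      apply Subtype.ext
      apply hψ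
      rw [hw a, hw b, h5]
    have hk : Nat.card ρ.ker ≤ p := by
      have h6 := Nat.card_le_card_of_injective _ hinj
      rwa [Nat.card_zmod] at h6
    have hr2 : Nat.card ρ.range ≤ p :=
      (Nat.card_le_card_of_injective _ Subtype.val_injective).trans NI_card_Pg
    have h7 : Nat.card M = Nat.card ρ.range * Nat.card ρ.ker := by
      rw [Subgroup.card_eq_card_quotient_mul_card_subgroup ρ.ker,
        Nat.card_congr (QuotientGroup.quotientKerEquivRange ρ).toEquiv]
    rw [hcardM] at h7
    have h8 : p ^ (r + 1) ≤ p * p := by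
      rw [h7]; exact Nat.mul_le_mul hr2 hk
    have h9 : p ^ 3 ≤ p ^ (r + 1) := Nat.pow_le_pow_right hp.out.pos (by omega)
    have h10 : p * p < p ^ 3 := by
      have : p * p * 1 < p * p * p := Nat.mul_lt_mul_of_pos_left (by omega) (by positivity)
      calc p * p = p * p * 1 := by ring
        _ < p * p * p := this
        _ = p ^ 3 := by ring
    omega

end Pool.Agent.helper40.FR
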