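import Pool.Agent.helper19.FR.LAM
import Pool.Agent.helper14.FR.KFR

set_option autoImplicit false

namespace Pool.Agent.FR

open Finset Real Pool.Agent.AT Pool.Agent.OM Pool.Agent.helper85.FC

theorem KFRQ (ε : ℝ) (C : ℕ) (hC : ∀ (F : Finset ℕ) (η : ℝ), (∀ s ∈ F, 0 < s) → 0 < η → Lam ε (1 / 10000000) η C F) :
    ∀ F : Finset ℕ, (∀ s ∈ F, 0 < s) → ∃ E : Finset (ℕ × ℕ), #E ≤ C ∧ Four ε E (F : Set ℕ) := by
  intro F hF
  obtain ⟨E, hE, T, hT1, hT2, A, hA, hd, hp⟩ := hC F (1 / 10000000) hF (by norm_num)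
  refine ⟨E, hE, ?_⟩
  intro s hs hinj hrat
  by_contra hcon
  push Not at hcon
  have hpair : ∀ i j : Fin 4, i ≠ j → mean (fun x => A (s i) x * A (s j) x) ≤ 1 / 10000000 := by
    intro i j hij
    exact hp (s i) (hs i).2 (s j) (hs j).2 (fun h => hij (hinj h)) (hrat i j hij) (hcon i j hij)
  have hm : ∀ i : Fin 4, 1 / 4 + 1 / 500000 - 1 / 10000000 ≤ mean (A (s i)) := fun i => hd (s i) (hs i).2
  set D : ℝ := ∑ i : Fin 4, mean (A (s i)) with hD
  have hD1 : 1 + 7 / 1000000 ≤ D := by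
    rw [hD, Fin.sum_univ_four]
    linarith [hm 0, hm 1, hm 2, hm 3]
  have h1 : D ^ 2 ≤ mean (fun x => (∑ i : Fin 4, A (s i) x) ^ 2) := by
    rw [hD, ← KFR_sum]
    exact KFR_cs _
  have h2 : mean (fun x => (∑ i : Fin 4, A (s i) x) ^ 2) = ∑ i : Fin 4, ∑ j : Fin 4, mean (fun x => A (s i) x * A (s j) x) := by
    have h3 : (fun x => (∑ i : Fin 4, A (s i) x) ^ 2) = fun x => ∑ i : Fin 4, ∑ j : Fin 4, A (s i) x * A (s j) x := by
      funext x
      rw [sq, Finset.sum_mul_sum]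
    rw [h3, KFR_sum]
    refine Finset.sum_congr rfl fun i _ => ?_
    rw [KFR_sum]
  have h4 : ∀ i j : Fin 4, mean (fun x => A (s i) x * A (s j) x) ≤ if i = j then mean (A (s i)) else 1 / 10000000 := by
    intro i j
    by_cases hij : i = j
    · subst hij
      rw [if_pos rfl]
      refine KFR_mono _ _ fun x => ?_
      have h5 := hA (s i) x
      nlinarith [h5.1, h5.2]
    · rw [if_neg hij]
      exact hpair i j hij
  have h6 : ∑ i : Fin 4, ∑ j : Fin 4, mean (fun x => A (s i) x * A (s j) x) ≤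
      ∑ i : Fin 4, ∑ j : Fin 4, if i = j then mean (A (s i)) else 1 / 10000000 :=
    Finset.sum_le_sum fun i _ => Finset.sum_le_sum fun j _ => h4 i j
  have h9 : ∀ i : Fin 4, (∑ j : Fin 4, if i = j then mean (A (s i)) else (1 / 10000000 : ℝ)) = mean (A (s i)) + 3 / 10000000 := by
    intro i
    have h10 : ∀ j : Fin 4, (if i = j then mean (A (s i)) else (1 / 10000000 : ℝ)) =
        1 / 10000000 + (if i = j then mean (A (s i)) - 1 / 10000000 else 0) := by
      intro j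
      split_ifs <;> ring
    simp only [h10]
    rw [Finset.sum_add_distrib, Finset.sum_const, Finset.sum_ite_eq, if_pos (Finset.mem_univ _), Finset.card_univ,
      Fintype.card_fin, nsmul_eq_mul]
    push_cast
    ring
  have h7 : (∑ i : Fin 4, ∑ j : Fin 4, if i = j then mean (A (s i)) else (1 / 10000000 : ℝ)) = D + 12 / 10000000 := by
    simp only [h9]
    rw [Finset.sum_add_distrib, Finset.sum_const, Finset.card_univ, Fintype.card_fin, nsmul_eq_mul, ← hD]
    push_cast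
    ring
  have h8 : D ^ 2 ≤ D + 12 / 10000000 := by
    rw [h7] at h6
    linarith [h1, h2.le, h6]
  nlinarith

/-- from the finite sets `{1, ..., N}` to all positive integers, with the same bound -/
theorem GLBQ (ε : ℝ) (C : ℕ) (h : ∀ F : Finset ℕ, (∀ s ∈ F, 0 < s) → ∃ E : Finset (ℕ × ℕ), #E ≤ C ∧ Four ε E (F : Set ℕ)) :
    ∃ E : Finset (ℕ × ℕ), #E ≤ C ∧ Four ε E Set.univ := by
  classical
  have h0 : ∀ N : ℕ, ∃ E : Finset (ℕ × ℕ), #E ≤ C ∧ Four ε E ((Finset.Icc 1 N : Finset ℕ) : Set ℕ) := fun N =>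
    h (Finset.Icc 1 N) fun s hs => (Finset.mem_Icc.1 hs).1
  choose E hE hF using h0
  obtain ⟨U, hU⟩ : ∃ U : Ultrafilter ℕ, U = Filter.hyperfilter ℕ := ⟨_, rfl⟩
  have key : ∀ S : Finset (ℕ × ℕ), (∀ r ∈ S, ∀ᶠ N in (U : Filter ℕ), r ∈ E N) → #S ≤ C := by
    intro S hS
    have h1 : ∀ᶠ N in (U : Filter ℕ), ∀ r ∈ S, r ∈ E N := (Filter.eventually_all_finset S).2 hS
    obtain ⟨N, hN⟩ := h1.exists
    exact (Finset.card_le_card hN).trans (hE N)
  have hfin : {r : ℕ × ℕ | ∀ᶠ N in (U : Filter ℕ), r ∈ E N}.Finite := by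
    by_contra hinf
    obtain ⟨S, hS, hc⟩ := Set.Infinite.exists_subset_card_eq hinf (C + 1)
    have := key S fun r hr => hS hr
    omega
  refine ⟨hfin.toFinset, key _ fun r hr => hfin.mem_toFinset.1 hr, ?_⟩
  intro s hs hinj hrat
  have h2 : ∀ᶠ N in (U : Filter ℕ), ∀ i j : Fin 4, i ≠ j → rp (s i) (s j) ∉ E N := by
    rw [Filter.eventually_all]
    intro i
    rw [Filter.eventually_all]
    intro j
    by_cases hij : i = j
    · exact Filter.Eventually.of_forall fun N h => absurd hij h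
    · have h3 : ¬ ∀ᶠ N in (U : Filter ℕ), rp (s i) (s j) ∈ E N := fun h4 => hrat i j hij (hfin.mem_toFinset.2 h4)
      rw [← Ultrafilter.eventually_not] at h3
      exact h3.mono fun N h _ => h
  have h3 : ∀ᶠ N in (U : Filter ℕ), ∀ i : Fin 4, s i ≤ N := by
    rw [Filter.eventually_all]
    intro i
    rw [hU]
    exact Filter.hyperfilter_le_cofinite (by
      rw [Nat.cofinite_eq_atTop]
      exact Filter.eventually_ge_atTop (s i))
  obtain ⟨N, h4, h5⟩ := (h2.and h3).exists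
  exact hF N s (fun i => ⟨(hs i).1, by
    rw [Finset.mem_coe, Finset.mem_Icc]
    exact ⟨(hs i).1, h5 i⟩⟩) hinj h4

end Pool.Agent.FR
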