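import Pool.Agent.helper19.FR.Spec

set_option autoImplicit false

namespace Pool.Agent.FR

open Finset Real Pool.Agent.AT Pool.Agent.OM Pool.Agent.helper85.FC

/-- six positive integers for all pairs -/
theorem SIX (hTHR : THR_stmt) : ∀ ε : ℝ, 0 < ε → ∃ S : Finset ℕ, #S ≤ 6 ∧ (∀ s ∈ S, 0 < s) ∧
    ∀ a b : ℕ, 1 ≤ a → 1 ≤ b → ∃ u ∈ S, GQ ε (u * a) b := by
  classical
  intro ε hε
  obtain ⟨s₁, s₂, s₃, E, h1, h2, h3, h⟩ := hTHR ε hε
  -- a bound for all entries
  obtain ⟨B, hB⟩ : ∃ B : ℕ, ∀ r ∈ E, r.1 ≤ B ∧ r.2 ≤ B := by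
    refine ⟨∑ r ∈ E, (r.1 + r.2), fun r hr => ?_⟩
    have h4 : r.1 + r.2 ≤ ∑ r ∈ E, (r.1 + r.2) := Finset.single_le_sum (f := fun r : ℕ × ℕ => r.1 + r.2) (fun _ _ => Nat.zero_le _) hr
    omega
  obtain ⟨u, hu⟩ : ∃ u : ℕ, u = B * B + 1 := ⟨_, rfl⟩
  have hu0 : 0 < u := by rw [hu]; exact Nat.succ_pos _
  refine ⟨{s₁, s₂, s₃, s₁ * u, s₂ * u, s₃ * u}, Finset.card_le_six, ?_, ?_⟩
  · intro s hs
    simp only [Finset.mem_insert, Finset.mem_singleton] at hs
    rcases hs with rfl | rfl | rfl | rfl | rfl | rfl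
    · exact h1
    · exact h2
    · exact h3
    · exact Nat.mul_pos h1 hu0
    · exact Nat.mul_pos h2 hu0
    · exact Nat.mul_pos h3 hu0
  · intro a b ha hb
    by_cases hE : rp a b ∈ E
    · -- replace `a` by `u a`
      have hE' : rp (u * a) b ∉ E := by
        intro hE'
        obtain ⟨hx, hy⟩ := hB _ hE
        obtain ⟨hx', hy'⟩ := hB _ hE'
        have hg : 0 < Nat.gcd a b := Nat.gcd_pos_of_pos_left _ ha
        have hg' : 0 < Nat.gcd (u * a) b := Nat.gcd_pos_of_pos_right _ hb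
        unfold rp at hx hy hx' hy'
        obtain ⟨x, hxe⟩ := Nat.gcd_dvd_left a b
        obtain ⟨y, hye⟩ := Nat.gcd_dvd_right a b
        obtain ⟨x', hxe'⟩ := Nat.gcd_dvd_left (u * a) b
        obtain ⟨y', hye'⟩ := Nat.gcd_dvd_right (u * a) b
        have e1 : a / Nat.gcd a b = x := Nat.div_eq_of_eq_mul_right hg hxe
        have e2 : b / Nat.gcd a b = y := Nat.div_eq_of_eq_mul_right hg hye
        have e3 : u * a / Nat.gcd (u * a) b = x' := Nat.div_eq_of_eq_mul_right hg' hxe'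
        have e4 : b / Nat.gcd (u * a) b = y' := Nat.div_eq_of_eq_mul_right hg' hye'
        simp only [e1, e2, e3, e4] at hx hy hx' hy'
        -- `u x y' = x' y`
        have key : u * x * y' = x' * y := by
          have h5 : (u * a) * b = u * (Nat.gcd a b * x) * (Nat.gcd (u * a) b * y') := by rw [← hxe, ← hye']
          have h6 : (u * a) * b = (Nat.gcd (u * a) b * x') * (Nat.gcd a b * y) := by rw [← hxe', ← hye]
          have h7 : (Nat.gcd a b * Nat.gcd (u * a) b) * (u * x * y') = (Nat.gcd a b * Nat.gcd (u * a) b) * (x' * y) := by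
            calc (Nat.gcd a b * Nat.gcd (u * a) b) * (u * x * y') = u * (Nat.gcd a b * x) * (Nat.gcd (u * a) b * y') := by ring
              _ = (Nat.gcd (u * a) b * x') * (Nat.gcd a b * y) := by rw [← h5, h6]
              _ = _ := by ring
          exact Nat.eq_of_mul_eq_mul_left (Nat.mul_pos hg hg') h7
        have hx0 : 0 < x := Nat.pos_of_ne_zero fun h0 => by rw [h0, mul_zero] at hxe; omega
        have hy0 : 0 < y' := Nat.pos_of_ne_zero fun h0 => by rw [h0, mul_zero] at hye'; omega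
        have h8 : u ≤ u * x * y' := by
          calc u = u * 1 * 1 := by ring
            _ ≤ u * x * y' := by gcongr <;> assumption
        have h9 : x' * y ≤ B * B := Nat.mul_le_mul hx' hy
        omega
      have h5 := h (u * a) b (Nat.mul_pos hu0 ha) hb hE'
      rw [← mul_assoc, ← mul_assoc, ← mul_assoc] at h5
      rcases h5 with h5 | h5 | h5
      · exact ⟨s₁ * u, by simp, h5⟩
      · exact ⟨s₂ * u, by simp, h5⟩
      · exact ⟨s₃ * u, by simp, h5⟩
    · rcases h a b ha hb hE with h5 | h5 | h5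
      · exact ⟨s₁, by simp, h5⟩
      · exact ⟨s₂, by simp, h5⟩
      · exact ⟨s₃, by simp, h5⟩

end Pool.Agent.FR
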