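import Pool.Agent.helper10.OM.SpecG

/-!
# Project FR (MP_bf63dc_nt, HARD 7, rows `fr:*`): FOUR INTEGERS, two of any four coefficients are solved, up to a finite set of ratios

THEOREM. Let `ε > 0`; a pair `(s, t)` is good (`GQ ε s t`, Pool.Agent.OM) if for its reduced pair `(a, b)` all but a proportion `ε` of the
`c` in arbitrarily long stretches of a residue class are true. (A) There is a FINITE set `E` of ratios such that among ANY four positive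
integers with all ratios outside `E` two form a good pair. (B) THREE positive integers `s₁, s₂, s₃` such that for ALL `a, b ≥ 1`, with the
exception of finitely many ratios `a/b`, one of the pairs `(s_i a, b)` is good. (C) Every finite set `F` of positive integers has at least
`#F² / 3 - C #F` good pairs. (D) A third of ALL coprime pairs (logarithmic density) is good. (E) For EVERY coprime `(a, b) ≠ (1, 1)` some
`(a^m, b^m)`, `1 ≤ m ≤ K`, is good.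

IDEA. Take random forms `w n + 1 + M x`, `0 ≤ x < X`, with all slopes `w = v s`, `s ∈ F`, `v` in a Foelner set. By the theorem on almost all
tuples (`Qk`, landed) more than `(1/4 + 1/500000)` of them are prime simultaneously (the clique `J`). The correlation kernel of `J` for
equal slopes, averaged over `v`, is the same for all `s` (Foelner). The functions `(x, x') ↦ b_r (a x - b x')`, `b_r` = indicator of the
false cases minus its averages over short progressions of difference `(m²)!`, are nearly ORTHOGONAL in `L²` for different ratios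
`r = (a, b)`: a shift by a multiple of `(b', a')` does not change `a' x - b' x'`. So by Bessel's inequality, applied to the products of the
eigenfunctions of the kernel, only `C(ε)` ratios have false cases which are correlated with the cliques. For all the other ratios which
are not good the cliques have density product near to 0, and four slopes, each with clique density more than 1/4, cannot have
this for all six pairs.

RULES. Row `XX`: file `Pool/Agent/<seat>/FR/XX.lean`, `import Pool.Agent.helper19.FR.Spec`, `namespace Pool.Agent.FR`,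
`theorem XX (hYY : YY_stmt) ... : XX_stmt` (other rows only as hypotheses, drop those you do not need), auxiliary lemmas prefixed `XX_`. No
`convert`, no `congr!`, no `native_decide`, no straight double quotes; `open Classical in` only before definitions.
-/

set_option autoImplicit false

namespace Pool.Agent.FR

open Finset Real Pool.Agent.AT Pool.Agent.OM Pool.Agent.helper85.FC

/-! ## Definitions -/

/-- the mean value of `f` -/
noncomputable def mean {α : Type} [Fintype α] (f : α → ℝ) : ℝ := (∑ x, f x) / (Fintype.card α : ℝ)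

/-- the mean over the samples `ξ` (a point of `Fin X` for every `i : ι` and `m < H`) and over `m, m'` of
`j_(i,m) j_(i',m') Q(ξ_(i,m), ξ_(i',m'))` -/
noncomputable def corr {ι : Type} [Fintype ι] [DecidableEq ι] {H X : ℕ} (j : (ι × Fin H → Fin X) → ι × Fin H → ℝ) (i i' : ι)
    (Q : Fin X → Fin X → ℝ) : ℝ :=
  mean fun ξ : ι × Fin H → Fin X => mean fun m : Fin H => mean fun m' : Fin H =>
    j ξ (i, m) * j ξ (i', m') * Q (ξ (i, m)) (ξ (i', m'))

/-- the correlation kernel for equal slopes: `X²` times the mean over `ξ` and over `m, m'` of `j_(i,m) j_(i,m')` if `m ≠ m'`,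
`ξ_(i,m) = x`, `ξ_(i,m') = y`, and `0` otherwise -/
noncomputable def ker {ι : Type} [Fintype ι] [DecidableEq ι] {H X : ℕ} (j : (ι × Fin H → Fin X) → ι × Fin H → ℝ) (i : ι)
    (x y : Fin X) : ℝ :=
  (X : ℝ) ^ 2 * mean fun ξ : ι × Fin H → Fin X => mean fun m : Fin H => mean fun m' : Fin H =>
    if m ≠ m' ∧ ξ (i, m) = x ∧ ξ (i, m') = y then j ξ (i, m) * j ξ (i, m') else 0

open Classical in
/-- `1` if `c = a - b + M y` is not true for `(a, b)`, otherwise `0` -/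
noncomputable def bad (a b M : ℕ) (y : ℤ) : ℝ := if TrueCase a b ((a : ℤ) - b + M * y) then 0 else 1

/-- `bad` minus its average over `l` terms of a progression of difference `D` -/
noncomputable def bdp (a b M D l : ℕ) (y : ℤ) : ℝ := bad a b M y - mean fun k : Fin l => bad a b M (y + D * ((k : ℕ) : ℤ))

/-- the kernel `(x, x') ↦ bdp (a x - b x')` -/
noncomputable def Bk (a b M D l X : ℕ) (x x' : Fin X) : ℝ := bdp a b M D l ((a : ℤ) * ((x : ℕ) : ℤ) - (b : ℤ) * ((x' : ℕ) : ℤ))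

/-- the kernel `K` on `Fin X`, the number `κ` and the orthonormal functions `e i`: `⟨g, K g⟩ ≤ κ |g|²` for `g` orthogonal to the `e i` -/
def Eig {n X : ℕ} (K : Fin X → Fin X → ℝ) (κ : ℝ) (e : Fin n → Fin X → ℝ) : Prop :=
  (∀ i l : Fin n, mean (fun x => e i x * e l x) = if i = l then 1 else 0) ∧ (∀ i x, |e i x| ≤ 1 / κ) ∧
  ∀ g : Fin X → ℝ, (∀ i, mean (fun x => g x * e i x) = 0) →
    mean (fun z : Fin X × Fin X => K z.1 z.2 * g z.1 * g z.2) ≤ κ * mean (fun x => g x ^ 2)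

/-! ## Part A: pure rows (Mathlib only) -/

/-- **KBD** (short to medium; pure).  `0 ≤ j ≤ 1`. (1) `0 ≤ ker`: all terms are `≥ 0`. (2) `ker ≤ 1`: for `m ≠ m'` the mean over `ξ` of the term is at most the proportion
of the `ξ` with `ξ (i, m) = x`, `ξ (i, m') = y`, which is `1/X²` (two different coordinates: count `Fintype.piFinset`, or bound the number of these `ξ` by
`X ^ (card - 2)`); for `m = m'` it is 0; so the mean over `m, m'` is at most `1/X²`. (3) symmetric: exchange `m` and `m'`. -/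
def KBD_stmt : Prop := ∀ (ι : Type) [Fintype ι] [DecidableEq ι] (H X : ℕ) (j : (ι × Fin H → Fin X) → ι × Fin H → ℝ) (i : ι),
  1 ≤ H → 1 ≤ X → (∀ ξ p, 0 ≤ j ξ p ∧ j ξ p ≤ 1) → ∀ x y : Fin X, 0 ≤ ker j i x y ∧ ker j i x y ≤ 1 ∧ ker j i x y = ker j i y x

/-- **CSY** (short; pure).  Exchange `m` and `m'` (`Finset.sum_comm`). -/
def CSY_stmt : Prop := ∀ (ι : Type) [Fintype ι] [DecidableEq ι] (H X : ℕ) (j : (ι × Fin H → Fin X) → ι × Fin H → ℝ) (i i' : ι)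
  (Q : Fin X → Fin X → ℝ), corr j i i' Q = corr j i' i (fun x y => Q y x)

/-- **ERR** (medium; pure; the central estimate).  For every `ξ`, by Cauchy-Schwarz over `m'` and `|j| ≤ 1`,
`(mean_m mean_m' j_(i,m) j_(i',m') Q)² ≤ mean_m' (mean_m j_(i,m) Q(ξ_(i,m), ξ_(i',m')))² = mean_m mean_n j_(i,m) j_(i,n) N_ξ(m, n)`, where
`N_ξ(m, n) = mean_m' Q(ξ_(i,m), ξ_(i',m')) Q(ξ_(i,n), ξ_(i',m'))`. Put `Ψ(x, y) = mean_z Q(x, z) Q(y, z)`, `|Ψ| ≤ q²`. For fixed `m, n` the mean over `ξ` of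
`|N_ξ(m, n) - Ψ(ξ_(i,m), ξ_(i,n))|` is at most `q²/√H`: its square is at most the mean of the square (Cauchy-Schwarz), and given the coordinates `ξ_(i,m)`, `ξ_(i,n)` the
`H` numbers `Q(ξ_(i,m), ξ_(i',m'))Q(ξ_(i,n), ξ_(i',m')) - Ψ` are independent with mean 0 and bounded: expand the square; for `m' ≠ m''` the mean over the
coordinate `ξ_(i',m')` (all other coordinates fixed; `(i',m')` is different from `(i,m)`, `(i,n)`, `(i',m'')`) is 0; the `H` diagonal terms give at most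
`q⁴/H` (each square is at most `q⁴`: a variance of a number of absolute value at most `q²`). Since `0 ≤ j ≤ 1` (and the mean over `ξ` of the square is at least the square of the mean):
`corr² ≤ mean_ξ mean_m mean_n j j Ψ(ξ_(i,m), ξ_(i,n)) + q²/√H`. The terms with `m = n` contribute at most `q²/H`; those with `m ≠ n` are
`∑_(x,y) X^(-2) ker(x, y) Ψ(x, y)` (sort by the values `x = ξ_(i,m)`, `y = ξ_(i,n)`). -/
def ERR_stmt : Prop := ∀ (ι : Type) [Fintype ι] [DecidableEq ι] (H X : ℕ) (j : (ι × Fin H → Fin X) → ι × Fin H → ℝ) (i i' : ι)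
  (Q : Fin X → Fin X → ℝ) (q : ℝ), 1 ≤ H → 1 ≤ X → (∀ ξ p, 0 ≤ j ξ p ∧ j ξ p ≤ 1) → i ≠ i' → 0 ≤ q → (∀ x y, |Q x y| ≤ q) →
  corr j i i' Q ^ 2 ≤ mean (fun z : Fin X × Fin X => ker j i z.1 z.2 * mean (fun y => Q z.1 y * Q z.2 y)) +
    q ^ 2 * (1 / H + 1 / √H)

/-- **MAI** (short to medium; pure).  `|corr| ≤ mean_ξ (mean_m |e(ξ_(i,m))|) (mean_m' |f(ξ_(i',m'))|)`; for fixed `m, m'` the two coordinates are different, so the mean over `ξ` is
`mean |e| * mean |f| ≤ (mean e²)^(1/2) (mean f²)^(1/2) ≤ 1`. -/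
def MAI_stmt : Prop := ∀ (ι : Type) [Fintype ι] [DecidableEq ι] (H X : ℕ) (j : (ι × Fin H → Fin X) → ι × Fin H → ℝ) (i i' : ι)
  (e f : Fin X → ℝ), 1 ≤ H → 1 ≤ X → (∀ ξ p, 0 ≤ j ξ p ∧ j ξ p ≤ 1) → i ≠ i' → mean (fun x => e x ^ 2) ≤ 1 → mean (fun x => f x ^ 2) ≤ 1 →
  |corr j i i' (fun x y => e x * f y)| ≤ 1

/-- **SPE** (medium; pure, the spectral theorem).  The matrix `A = (K x y / X)` is symmetric (`Matrix.IsHermitian`); orthonormal basis of eigenvectors `b_k` with eigenvalues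
`μ_k` (`Matrix.IsHermitian.eigenvectorBasis`, `eigenvalues`); `∑ μ_k² = ∑_(x,y) A x y ² ≤ 1` (`0 ≤ K ≤ 1`; trace of `A²`, or `∑_k |A b_k|²`, Parseval). The `e_i` are
the `√X b_k` with `μ_k > κ`; their number is at most `1/κ²`. `e = (1/μ) A e` gives `|e x| ≤ (1/μ) mean_y K(x, y) |e y| ≤ (1/κ) (mean e²)^(1/2) = 1/κ`. For `g`
orthogonal to them: `⟨g, A g⟩ = ∑ μ_k ⟨g, b_k⟩² ≤ κ ∑ ⟨g, b_k⟩²` (if `κ < μ_k` then `⟨g, b_k⟩ = 0`). (`mean (K g g) = X⁻¹ ⟨g, A g⟩`, `mean g² = X⁻¹ |g|²`.) -/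
def SPE_stmt : Prop := ∀ (X : ℕ) (K : Fin X → Fin X → ℝ) (κ : ℝ), 1 ≤ X → 0 < κ → (∀ x y, 0 ≤ K x y ∧ K x y ≤ 1 ∧ K x y = K y x) →
  ∃ (n : ℕ) (e : Fin n → Fin X → ℝ), (n : ℝ) ≤ 1 / κ ^ 2 ∧ Eig K κ e

/-- **PRJ** (short to medium; pure).  `c_i(y) = mean_z e_i(z) B(z, y)`, `Q₁(x, y) = B(x, y) - ∑_i e_i(x) c_i(y)`, `Q₂(x, y) = ∑_i e_i(x) (c_i(y) - ∑_l β_il e_l(y))`, `β_il = mean e_i(x) e_l(y) B(x, y)`
(`= mean_y c_i(y) e_l(y)`). `|c_i| ≤ mean |e_i| ≤ 1` and `|β_il| ≤ 1` by Cauchy-Schwarz, so `|Q₁| ≤ 1 + n/κ`, `|Q₂| ≤ (n/κ) (1 + n/κ)`. Orthogonality of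
`Q₁(·, y)`, and of `Q₂(x, ·)`, to the `e_l`: orthonormality. `mean_x Q₁(x, y)² ≤ mean_x B(x, y)² ≤ 1`; `mean_x Q₂(x, y)² = ∑_i (c_i(y) - ∑_l β_il e_l(y))²` and
`mean_y` of it is at most `∑_i mean_y c_i(y)² ≤ mean_y mean_x B² ≤ 1` (Bessel). -/
def PRJ_stmt : Prop := ∀ (n X : ℕ) (κ : ℝ) (e : Fin n → Fin X → ℝ) (B : Fin X → Fin X → ℝ), 1 ≤ X → 0 < κ →
  (∀ i l : Fin n, mean (fun x => e i x * e l x) = if i = l then 1 else 0) → (∀ i x, |e i x| ≤ 1 / κ) → (∀ x y, |B x y| ≤ 1) →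
  ∃ Q₁ Q₂ : Fin X → Fin X → ℝ,
    (∀ x y, B x y = Q₁ x y + Q₂ x y + ∑ i, ∑ l, mean (fun z : Fin X × Fin X => e i z.1 * e l z.2 * B z.1 z.2) * (e i x * e l y)) ∧
    (∀ y i, mean (fun x => Q₁ x y * e i x) = 0) ∧ (∀ x i, mean (fun y => Q₂ x y * e i y) = 0) ∧
    (∀ x y, |Q₁ x y| ≤ (1 + n / κ) ^ 2 ∧ |Q₂ x y| ≤ (1 + n / κ) ^ 2) ∧
    mean (fun z : Fin X × Fin X => Q₁ z.1 z.2 ^ 2) ≤ 1 ∧ mean (fun z : Fin X × Fin X => Q₂ z.1 z.2 ^ 2) ≤ 1

/-- **COR** (medium; from KBD, CSY, ERR, MAI, PRJ).  The average over `v` of the correlations for the pairs `(p v, p' v)`. By PRJ `B = Q₁ + Q₂ + ∑ β_il e_i e_l` and `corr` is linear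
in the kernel; the third part gives at most `∑ |β_il|` (MAI: `mean e_i² = 1`). First part: by Jensen and ERR (`q = (1 + n/κ)²`)
`(mean_v corr j (p v) (p' v) Q₁)² ≤ mean_v corr² ≤ mean_z (mean_v ker j (p v) z.1 z.2) Ψ₁(z) + q² (1/H + 1/√H)`, `Ψ₁(x, y) = mean_w Q₁(x, w) Q₁(y, w)`, `|Ψ₁| ≤ q²`; the hypothesis on
`mean_v ker` replaces it by `K` with an error `η q²`; and `mean_z K(z) Ψ₁(z) = mean_w mean_z K(z) Q₁(z.1, w) Q₁(z.2, w) ≤ κ mean_w mean_x Q₁(x, w)² ≤ κ` (`Eig`, third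
part, for `g = Q₁(·, w)`). Second part: the same for `corr j (p' v) (p v)` and `(x, y) ↦ Q₂(y, x)` (CSY). Each of the two is at most
`√(κ + q² (η + 1/H + 1/√H))`. -/
def COR_stmt : Prop := ∀ (ι V : Type) [Fintype ι] [DecidableEq ι] [Fintype V] [Nonempty V] (H X n : ℕ)
  (j : (ι × Fin H → Fin X) → ι × Fin H → ℝ) (p p' : V → ι) (K : Fin X → Fin X → ℝ) (κ η : ℝ) (e : Fin n → Fin X → ℝ)
  (B : Fin X → Fin X → ℝ), 1 ≤ H → 1 ≤ X → (∀ ξ z, 0 ≤ j ξ z ∧ j ξ z ≤ 1) → (∀ v, p v ≠ p' v) → 0 < κ → 0 ≤ η →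
  (∀ x y, |mean (fun v => ker j (p v) x y) - K x y| ≤ η) → (∀ x y, |mean (fun v => ker j (p' v) x y) - K x y| ≤ η) →
  Eig K κ e → (∀ x y, |B x y| ≤ 1) →
  |mean (fun v => corr j (p v) (p' v) B)| ≤ ∑ i, ∑ l, |mean (fun z : Fin X × Fin X => e i z.1 * e l z.2 * B z.1 z.2)| +
    2 * √(κ + (1 + n / κ) ^ 4 * (η + 1 / H + 1 / √H))

/-- **ORT** (medium; pure; orthogonality of different ratios; `f` minus its average over shifts is nearly orthogonal to `g`, for any `g`).  `d = a b' - a' b ≠ 0` divides `D`; put `D = d e`. The shift `(u, u') = (k e b', k e a')` has `a u - b u' = k D`, `a' u - b' u' = 0`, and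
`|u|, |u'| ≤ k D m` (`|e| ≤ D`). For `G(z, z') = f(a z - b z') g(a' z - b' z')` on `ℤ²`, `|G| ≤ 1`: the sums of `G(x, x')` and of
`G(x + u, x' + u') = f(a x - b x' + k D) g(a' x - b' x')` over the square `[0, X)²` differ by at most `2 (|u| + |u'|) X` (the square and its translate). Take the mean over `k < l`:
the difference of the means is at most `4 l D m / X`. -/
def ORT_stmt : Prop := ∀ (a b a' b' m D l X : ℕ) (f g : ℤ → ℝ), a ≤ m → b ≤ m → a' ≤ m → b' ≤ m → 1 ≤ l → 1 ≤ X → 0 < D →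
  (a : ℤ) * b' - a' * b ≠ 0 → ((a : ℤ) * b' - a' * b) ∣ (D : ℤ) → (∀ y, |f y| ≤ 1) → (∀ y, |g y| ≤ 1) →
  |mean (fun z : Fin X × Fin X =>
    (f ((a : ℤ) * ((z.1 : ℕ) : ℤ) - (b : ℤ) * ((z.2 : ℕ) : ℤ)) -
      mean fun k : Fin l => f ((a : ℤ) * ((z.1 : ℕ) : ℤ) - (b : ℤ) * ((z.2 : ℕ) : ℤ) + D * ((k : ℕ) : ℤ))) *
    g ((a' : ℤ) * ((z.1 : ℕ) : ℤ) - (b' : ℤ) * ((z.2 : ℕ) : ℤ)))| ≤ 4 * l * D * m / X

/-- **BES** (short; pure; Bessel's inequality for nearly orthogonal vectors).  `c_r = mean (u B_r)`, `S = ∑ c_r²`. `S = mean (u ∑ c_r B_r) ≤ (mean (∑ c_r B_r)²)^(1/2)` and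
`mean (∑ c_r B_r)² ≤ ∑ c_r² + δ (∑ |c_r|)² ≤ S + δ #R S ≤ 2 S`. So `S² ≤ 2 S`. -/
def BES_stmt : Prop := ∀ (α ρ : Type) [Fintype α] [Nonempty α] (R : Finset ρ) (B : ρ → α → ℝ) (u : α → ℝ) (δ : ℝ), 0 ≤ δ → δ * #R ≤ 1 →
  mean (fun x => u x ^ 2) ≤ 1 → (∀ r ∈ R, mean (fun x => B r x ^ 2) ≤ 1) →
  (∀ r ∈ R, ∀ r' ∈ R, r ≠ r' → |mean (fun x => B r x * B r' x)| ≤ δ) →
  ∑ r ∈ R, mean (fun x => u x * B r x) ^ 2 ≤ 2

/-- **FOL** (short to medium; pure; Foelner sets).  `P` = the set of the primes dividing an element of `F`, `c` = the maximum of the exponents. `Φ` = the integers with all prime factors in `P` and all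
exponents `< N`; `#Φ = N^#P`, and `Φ ∪ Φ F` is contained in the set with exponents `< N + c`: `#(Φ ∪ ΦF) ≤ (N + c)^#P ≤ (1 + η) N^#P` for large `N`. (`P = ∅`: `Φ = {1}`.) -/
def FOL_stmt : Prop := ∀ (F : Finset ℕ) (η : ℝ), (∀ s ∈ F, 0 < s) → 0 < η → ∃ Φ : Finset ℕ, Φ.Nonempty ∧ (∀ v ∈ Φ, 0 < v) ∧
  (#(Φ ∪ (Φ ×ˢ F).image (fun z => z.1 * z.2)) : ℝ) ≤ (1 + η) * #Φ

/-- **FOK** (short; pure).  `W` contains `Φ` and `Φ s = {v s}`, `#(Φ s) = #Φ`, `#W ≤ (1 + η) #Φ`. (1) The sums of `G` over `Φ` and over `Φ s` differ by the difference of the sums over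
`Φ s \ Φ` and `Φ \ Φ s`, both between 0 and `η #Φ`. (2) The sum over `Φ s` is at least the sum over `W` minus `#W - #Φ`. -/
def FOK_stmt : Prop := ∀ (Φ W : Finset ℕ) (s : ℕ) (η α : ℝ) (G : ℕ → ℝ), 0 < s → 0 < #Φ → 0 ≤ α → Φ ⊆ W → (∀ v ∈ Φ, v * s ∈ W) →
  (#W : ℝ) ≤ (1 + η) * #Φ → (∀ w ∈ W, 0 ≤ G w ∧ G w ≤ 1) →
  |(∑ v ∈ Φ, G (v * s)) / #Φ - (∑ v ∈ Φ, G v) / #Φ| ≤ η ∧
  (α * #W ≤ ∑ w ∈ W, G w → α - η ≤ (∑ v ∈ Φ, G (v * s)) / #Φ)

/-! ## Part B: the input from number theory -/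

/-- **MOD** (medium; the model).  From `∀ k ≥ 1, Qk k` (`Pool.Agent.AT.Q_all`, as hypothesis) and `PRT_stmt` (as hypothesis). `k = #W H`, an enumeration of `↥W × Fin H`; `M` = product of the primes
`≤ k` and of the `w ∈ W`; `F_(w,m) = {(w, 1 + M x) : x < X}` (`#F = X = L`). All tuples in the product are admissible: `n = 0` for `p ∣ M` (all values are `1`
modulo `p`); for `p ∤ M`, `p > k` and `p ∤ w`: each form excludes one class, `k < p`. By `Qk` the number of tuples without `Many` is at most `C X^k X^(-δ) ≤ η X^k` for `X ≥ X₀`. For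
a tuple `ξ` with `Many` there is a set `J` of more than `(1/4 + 1/500000) k` indices all of whose forms are prime for arbitrarily large `n` (finitely many sets);
`j ξ` = indicator of `J`, and `j ξ = 0` for the other tuples. The last inequality is clear: `∑ j ξ ≥ (1/4 + 1/500000) k` for all but `η X^k` tuples. For
`(w, m), (w', m')` in `J`, `w ≠ w'`: PRT for the two forms (a pair of an admissible tuple is admissible) gives `Pair (w, 1 + M x) (w', 1 + M x')`, i.e.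
`TrueCase (w'/g) (w/g) ((w' (1 + M x) - w (1 + M x'))/g)`, which is the claim. Compare CLQ (Pool/Agent/helper17/AT/CLQ.lean). -/
def MOD_stmt : Prop := (∀ k : ℕ, 1 ≤ k → Qk k) → PRT_stmt → ∀ (W : Finset ℕ) (H : ℕ) (η : ℝ), W.Nonempty → (∀ w ∈ W, 0 < w) →
  1 ≤ H → 0 < η → ∃ M X₀ : ℕ, 0 < M ∧ ∀ X : ℕ, X₀ ≤ X → ∃ j : (↥W × Fin H → Fin X) → ↥W × Fin H → ℝ,
    (∀ ξ p, j ξ p = 0 ∨ j ξ p = 1) ∧
    (∀ (ξ : ↥W × Fin H → Fin X) (w w' : ↥W) (m m' : Fin H), w ≠ w' → j ξ (w, m) = 1 → j ξ (w', m') = 1 →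
      TrueCase ((w' : ℕ) / Nat.gcd w w') ((w : ℕ) / Nat.gcd w w')
        ((((w' : ℕ) / Nat.gcd w w' : ℕ) : ℤ) - (((w : ℕ) / Nat.gcd w w' : ℕ) : ℤ) +
          M * ((((w' : ℕ) / Nat.gcd w w' : ℕ) : ℤ) * ((ξ (w, m) : ℕ) : ℤ) - (((w : ℕ) / Nat.gcd w w' : ℕ) : ℤ) * ((ξ (w', m') : ℕ) : ℤ)))) ∧
    (1 / 4 + 1 / 500000 - η) * (#W * H) ≤ mean (fun ξ : ↥W × Fin H → Fin X => ∑ p, j ξ p)

/-- **UNS** (short to medium).  Not `GoodR ε a b` means: for all `q ≥ 1`, `r` there is `T ≥ 1` such that for all `u : ℤ` fewer than `(1 - ε) T` of the numbers `r + q u + q t`, `t < T`, are true. Use `q = M D`, all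
`r < q` and all pairs in `R`, `l` = product of all these `T` (a common multiple). For given `(a, b)`, `y` let `r, u` be remainder and quotient of `a - b + M y` modulo `M D`; the numbers
`a - b + M (y + D k)`, `k < l`, are `r + q (u + k)`: `l / T` blocks of `T`, each with fewer than `(1 - ε) T` true ones; so `bad` has sum `> ε l`. -/
def UNS_stmt : Prop := ∀ (ε : ℝ) (R : Finset (ℕ × ℕ)) (M D : ℕ), 0 < M → 0 < D → (∀ r ∈ R, ¬ GoodR ε r.1 r.2) →
  ∃ l : ℕ, 1 ≤ l ∧ ∀ r ∈ R, ∀ y : ℤ, ε < mean fun k : Fin l => bad r.1 r.2 M (y + D * ((k : ℕ) : ℤ))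

/-- **STP** (short to medium; step 1 of the proof).  For every `ξ, m, m'` the product `j_(w,m) j_(w',m') bad(a x - b x')`, `x = ξ_(w,m)`, `x' = ξ_(w',m')`, is 0 (hypothesis 3), so
`0 = j j (Bk + average)`, the average is `> ε`: `ε j j ≤ - j j Bk`. Take the mean over `ξ, m, m'`. -/
def STP_stmt : Prop := ∀ (ι : Type) [Fintype ι] [DecidableEq ι] (H X a b M D l : ℕ) (ε : ℝ) (j : (ι × Fin H → Fin X) → ι × Fin H → ℝ) (i i' : ι),
  1 ≤ H → 1 ≤ X → 1 ≤ l → (∀ ξ p, j ξ p = 0 ∨ j ξ p = 1) → (∀ y : ℤ, ε < mean fun k : Fin l => bad a b M (y + D * ((k : ℕ) : ℤ))) →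
  (∀ (ξ : ι × Fin H → Fin X) (m m' : Fin H), j ξ (i, m) = 1 → j ξ (i', m') = 1 →
    TrueCase a b ((a : ℤ) - b + M * ((a : ℤ) * ((ξ (i, m) : ℕ) : ℤ) - (b : ℤ) * ((ξ (i', m') : ℕ) : ℤ)))) →
  ε * mean (fun ξ : ι × Fin H → Fin X => mean (fun m : Fin H => j ξ (i, m)) * mean (fun m' : Fin H => j ξ (i', m'))) ≤
    -corr j i i' (Bk a b M D l X)

/-! ## Part C: assembly -/

/-- the conclusion of the analysis: up to `C` ratios the densities `A s` (`s ∈ F`) of the cliques have small products for all pairs which are not good -/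
def Lam (ε lam η : ℝ) (C : ℕ) (F : Finset ℕ) : Prop := ∃ E : Finset (ℕ × ℕ), #E ≤ C ∧ ∃ (T : Type) (_ : Fintype T) (_ : Nonempty T)
  (A : ℕ → T → ℝ), (∀ s x, 0 ≤ A s x ∧ A s x ≤ 1) ∧ (∀ s ∈ F, 1 / 4 + 1 / 500000 - η ≤ mean (A s)) ∧
  ∀ s ∈ F, ∀ t ∈ F, s ≠ t → rp s t ∉ E → ¬ GQ ε s t → mean (fun x => A s x * A t x) ≤ lam

/-- **EXC** (medium; from ORT, BES; the exceptional ratios).  `R` = finite set of coprime pairs of positive integers `≤ m`, `D = (m²)!`; different elements have `a b' - a' b ≠ 0` (coprime pairs with equal ratio are equal), of absolute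
value `≤ m²`, so a divisor of `D`. By ORT (`f = bad`, `g = bdp`, `|bad| ≤ 1`, `|bdp| ≤ 1`) the vectors `Bk` on `Fin X × Fin X` satisfy `|mean (Bk_r Bk_r')| ≤ 4 l D m / X ≤ 1/#R`. BES
for `u = e_i(z.1) e_l(z.2)` (`mean u² = mean e_i² mean e_l² = 1`): `∑_r β_il(r)² ≤ 2`. Sum over `i, l`: `∑_r ∑_il β_il(r)² ≤ 2 n²`. So at most `2 n²/θ²` of the `r` have
`∑_il β_il(r)² > θ²`; for the other `r`, `∑_il |β_il(r)| ≤ n θ` (Cauchy-Schwarz). -/
def EXC_stmt : Prop := ∀ (m M l X n : ℕ) (θ : ℝ) (R : Finset (ℕ × ℕ)) (e : Fin n → Fin X → ℝ), 0 < θ → 1 ≤ l → 1 ≤ X →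
  (∀ r ∈ R, 1 ≤ r.1 ∧ r.1 ≤ m ∧ 1 ≤ r.2 ∧ r.2 ≤ m ∧ Nat.Coprime r.1 r.2) →
  4 * l * ((m ^ 2).factorial : ℝ) * m * #R ≤ X → (∀ i l' : Fin n, mean (fun x => e i x * e l' x) = if i = l' then 1 else 0) →
  ∃ E ⊆ R, (#E : ℝ) ≤ 2 * n ^ 2 / θ ^ 2 ∧ ∀ r ∈ R, r ∉ E →
    ∑ i, ∑ l', |mean (fun z : Fin X × Fin X => e i z.1 * e l' z.2 * Bk r.1 r.2 M (m ^ 2).factorial l X z.1 z.2)| ≤ n * θ

/-- **LAM** (long-medium; the assembly; from KBD, SPE, COR, EXC, FOL, FOK, MOD, UNS, STP, GSY).  `ε, lam ≤ 1` without loss (`GQ` is monotone in `ε`; or treat `κ = min ...`). `κ = (ε lam/16)²`,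
`N₁ = ⌈1/κ²⌉`, `θ = ε lam/(4 N₁)`, `C = ⌈2 N₁²/θ²⌉`. Given `F`, `η`: `m` = an upper bound of `F`, `D = (m²)!`, `η₁ ≤ η/2` small, `Φ` (FOL), `W = Φ ∪ ΦF`, `H` large with
`(1 + N₁/κ)⁴ (η₁ + 1/H + 1/√H) ≤ κ`; `M, X₀` (MOD for `η₁`), `R` = the pairs `(t/g, s/g)`, `s ≠ t ∈ F`, `g = gcd(s, t)`, which are not `GoodR ε`; `l` (UNS); `X` large (EXC); `j` (MOD). `ι = ↥W`, `V = ↥Φ`,
`p_s v = v s`, `K = mean_v ker j v`, `0 ≤ K ≤ 1` symmetric (KBD); `|mean_v ker j (v s) - K| ≤ η₁` (FOK (1)); SPE: `n ≤ N₁`, `e`; EXC: `E₀`; `E` = the swapped pairs of `E₀`. `T = ↥Φ × (↥W × Fin H → Fin X)`,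
`A s (v, ξ) = mean_m j ξ (v s, m)` for `s ∈ F` and 0 otherwise. FOK (2) for `G w = mean_ξ mean_m j ξ (w, m)`: `mean (A s) ≥ 1/4 + 1/500000 - 2 η₁`. For `s ≠ t ∈ F` with `¬ GQ ε s t`, `rp s t ∉ E`: `r = (t/g, s/g) ∈ R` (GSY),
`r ∉ E₀`; for `w = v s`, `w' = v t`: `w'/gcd(w, w') = t/g`, so STP for every `v`, the mean over `v`, and COR: `ε mean (A s A t) ≤ -mean_v corr
≤ |mean_v corr| ≤ n θ + 2 √(2 κ) ≤ ε lam / 4 + ε lam / 2`. -/
def LAM_stmt : Prop := ∀ ε lam : ℝ, 0 < ε → 0 < lam → ∃ C : ℕ, ∀ (F : Finset ℕ) (η : ℝ), (∀ s ∈ F, 0 < s) → 0 < η → Lam ε lam η C F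

/-! ## Part D: the theorem and its consequences -/

/-- among any four elements of `F` with all ratios outside `E` two form a good pair -/
def Four (ε : ℝ) (E : Finset (ℕ × ℕ)) (F : Set ℕ) : Prop := ∀ s : Fin 4 → ℕ, (∀ i, 0 < s i ∧ s i ∈ F) → Function.Injective s →
  (∀ i j, i ≠ j → rp (s i) (s j) ∉ E) → ∃ i j, i ≠ j ∧ GQ ε (s i) (s j)

/-- **KFR** (short; from LAM_stmt).  `lam = η = 10⁻⁷`. Let `s` be given, and no pair good; `A_i = A (s i)`, `D = ∑ mean A_i ≥ 4 (1/4 + 1/500000 - 10⁻⁷) ≥ 1 + 7/10⁶`. `D² ≤ mean (∑ A_i)² = ∑ mean A_i² +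
∑_(i ≠ j) mean (A_i A_j) ≤ D + 12/10⁷` (Cauchy-Schwarz; `0 ≤ A ≤ 1`), but `D (D - 1) ≥ 7/10⁶`. -/
def KFR_stmt : Prop := ∀ ε : ℝ, 0 < ε → ∃ C : ℕ, ∀ F : Finset ℕ, (∀ s ∈ F, 0 < s) → ∃ E : Finset (ℕ × ℕ), #E ≤ C ∧ Four ε E (F : Set ℕ)

/-- **GLB** (short to medium; from KFR_stmt).  `E_N` for `F = {1, ..., N}`, `U` = the hyperfilter on `ℕ` (an ultrafilter with all cofinite sets; `Filter.hyperfilter ℕ`). `E = {r | ∀ᶠ N in U, r ∈ E_N}` has at most `C` elements: `C + 1` of them would be in one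
`E_N`. So `E` is finite; for four integers with ratios outside `E`: for `U`-almost all `N` all ratios are outside `E_N` (finitely many conditions; `Ultrafilter.eventually_not`) and `N ≥ s i`. -/
def GLB_stmt : Prop := ∀ ε : ℝ, 0 < ε → ∃ E : Finset (ℕ × ℕ), Four ε E Set.univ

/-- **THR** (short to medium; from GLB_stmt; use MXC and GQS of Pool.Agent.helper99.EP.Spec as hypotheses or copy them).  `R s t := rp s t ∈ E ∨ rp t s ∈ E ∨ s = t ∨ GQ ε s t`: symmetric, reflexive, `R (s c) (t c) → R s t`, and any four different positive integers contain two related ones. MXC for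
`k = 3`: `S`, `#S ≤ 3`, with `R (s a) b` for some `s ∈ S`. Let `E'` be the set of all `rp u v` with `u/v = (x/y)/s` (`(x, y) ∈ E ∪ E^swap ∪ {(1, 1)}`, `s ∈ S`), i.e. `rp x (y s)`: if `rp (s a) b = (x, y)` then `s a y = b x`,
so `rp a b = rp x (y s)`. Enumerate `S` with repetitions (`S` is not empty: take `a = b = 1`). -/
def THR_stmt : Prop := ∀ ε : ℝ, 0 < ε → ∃ (s₁ s₂ s₃ : ℕ) (E : Finset (ℕ × ℕ)), 0 < s₁ ∧ 0 < s₂ ∧ 0 < s₃ ∧
  ∀ a b : ℕ, 1 ≤ a → 1 ≤ b → rp a b ∉ E → GQ ε (s₁ * a) b ∨ GQ ε (s₂ * a) b ∨ GQ ε (s₃ * a) b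

open Classical in
/-- **CNT** (short to medium; from GLB_stmt and `Pool.Agent.EP.GQS_stmt` (symmetry of `GQ`; import Pool.Agent.helper99.EP.Spec)).  The graph on `F` with edges `s ≠ t`, not good in both orders, ratios (in both orders) outside `E` has no complete subgraph with 4 vertices: Turan (`SimpleGraph.CliqueFree.card_edgeFinset_le`, or `MM_stmt` of
Pool.Agent.helper38.AT.Spec2 if it is suitable, or a direct weighted proof): at most `#F²/3` edges, `2 #F²/3` ordered pairs. The other ordered pairs which are not good have ratio in `E`, `E^swap` or `s = t`: at most `(2 #E + 1) #F` (given `s` and the ratio, `t` is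
determined). -/
def CNT_stmt : Prop := ∀ ε : ℝ, 0 < ε → ∃ C : ℝ, ∀ F : Finset ℕ, (∀ s ∈ F, 0 < s) →
  1 / 3 * (#F : ℝ) ^ 2 - C * #F ≤ #{p ∈ F ×ˢ F | GQ ε p.1 p.2}

open Classical in
/-- **LGD** (medium; from GLB_stmt and `Pool.Agent.EP.GQS_stmt` (symmetry of `GQ`; import Pool.Agent.helper99.EP.Spec); logarithmic density).  Weighted Turan (Motzkin and Straus) for the graph of CNT on `{1, ..., N}` with the weights `1/s`: the sum of `1/(s t)` over the ordered pairs which are edges is at most `(2/3) L²`, `L = ∑_(s ≤ N) 1/s`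
(proof: let `w_s ≥ 0`; as long as two non-adjacent vertices have positive weights, shift the weight of one to the other without decreasing the sum; at the end the support is a clique of at most 3 vertices and
`∑_(i ≠ j) w_i w_j ≤ (2/3) (∑ w)²`. Or induction on the number of vertices in the support). The pairs with ratio `(x, y)` have sum `≤ ∑ 1/(g² x y) ≤ 2`, so the good pairs have sum at least `L²/3 - C`. Sort them by the reduced pair `(a, b)` and the gcd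
`g`: `(∑_(g ≤ N) 1/g²) ∑_(a, b ≤ N coprime, good) 1/(a b) ≥ L²/3 - C`; and `∑_(a, b ≤ N coprime) 1/(ab)` times `∑_(g ≤ G) 1/g²` is at most `(∑_(s ≤ N G) 1/s)² ≤ (L + log G + 1)²`. Take first `G`, then `N` large. -/
def LGD_stmt : Prop := ∀ ε δ : ℝ, 0 < ε → 0 < δ → ∃ N₀ : ℕ, ∀ N : ℕ, N₀ ≤ N →
  (1 / 3 - δ) * ∑ p ∈ Icc 1 N ×ˢ Icc 1 N with Nat.Coprime p.1 p.2, 1 / ((p.1 : ℝ) * p.2) ≤
    ∑ p ∈ Icc 1 N ×ˢ Icc 1 N with Nat.Coprime p.1 p.2 ∧ GoodR ε p.1 p.2, 1 / ((p.1 : ℝ) * p.2)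

/-- **POW** (short to medium; from KFR_stmt, GSY_stmt).  `C` from KFR, `K = 3 (6 C + 1)`... Given coprime `(a, b) ≠ (1, 1)`: `F = {a^i b^(K-i) : i ≤ K}`; the numbers are different, `rp (a^i b^(K-i)) (a^j b^(K-j)) = (a^(i-j), b^(i-j))` for `j < i` (and swapped for `i < j`). `E` for `F`. For
`1 ≤ d ≤ 6 C + 1` use `i = 0, d, 2d, 3d`: if one of the (at most 6) pairs `(a^e, b^e)`, `(b^e, a^e)`, `e ∈ {d, 2d, 3d}`, is in `E`, `d` is excluded; every element of `E` is of this form for at most 3 values `d` (twice, for the two orders), so at most `6 C` values are excluded. For the others `Four` gives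
`GQ` for two of the four numbers, i.e. `GoodR ε (a^m) (b^m)` (GSY) with `m ∈ {d, 2d, 3d}`. -/
def POW_stmt : Prop := ∀ ε : ℝ, 0 < ε → ∃ K : ℕ, ∀ a b : ℕ, 1 ≤ a → 1 ≤ b → Nat.Coprime a b → ¬ (a = 1 ∧ b = 1) →
  ∃ m : ℕ, 1 ≤ m ∧ m ≤ K ∧ GoodR ε (a ^ m) (b ^ m)

/-- **TRI** (short to medium; from GLB_stmt, GSY_stmt).  `E` from GLB. Let `(a, b) ≠ (1, 1)` be coprime and `Four` applied to `b³, a b², a² b, a³` (different, as `a ≠ b`): the reduced pairs of two different ones are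
`(a^e, b^e)` and `(b^e, a^e)`, `1 ≤ e ≤ 3` (`b³ : a b² = b : a`, `b³ : a² b = b² : a²`, ...; coprime since `a, b` are). So the exceptional set is the set of the `(a, b)` with `a, b ≤ B`, `B` = an upper bound
for all entries of all elements of `E` and `1` (if `(a^e, b^e) ∈ E` then `a ≤ a^e ≤ B`, `b ≤ B`). -/
def TRI_stmt : Prop := ∀ ε : ℝ, 0 < ε → ∃ E : Finset (ℕ × ℕ), ∀ a b : ℕ, 1 ≤ a → 1 ≤ b → Nat.Coprime a b → (a, b) ∉ E →
  GoodR ε a b ∨ GoodR ε (a ^ 2) (b ^ 2) ∨ GoodR ε (a ^ 3) (b ^ 3)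

end Pool.Agent.FR
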